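import Pool.Agent.Y8.Stm

/-!
Task ACX of helper8: extension of a function with an integrable modulus of continuity.
-/

open MeasureTheory Set

namespace Pool.Agent.Y494.NS

theorem t_ACX : Pool.Agent.Y8.S_ACX := by
  intro α β G f k hαβ hG hk hk0 hf
  set k' : ℝ → ℝ := indicator (Ioo α β) k with hk'
  have hint : Integrable k' := (integrable_indicator_iff measurableSet_Ioo).2 hk
  set K : ℝ → ℝ := fun t => ∫ τ in α..t, k' τ with hK
  have hKc : Continuous K := intervalIntegral.continuous_primitive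
    (fun a b => hint.intervalIntegrable) α
  have hKd : ∀ s ∈ Icc α β, ∀ t ∈ Icc α β, s ≤ t → K t - K s = ∫ τ in Ioo s t, k τ := by
    intro s hs t ht hst
    have h1 : K t - K s = ∫ τ in s..t, k' τ := by
      simp only [hK]
      rw [intervalIntegral.integral_interval_sub_left hint.intervalIntegrable
        hint.intervalIntegrable]
    rw [h1, intervalIntegral.integral_of_le hst, integral_Ioc_eq_integral_Ioo]
    refine setIntegral_congr_fun measurableSet_Ioo fun τ hτ => ?_
    simp only [hk']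
    exact indicator_of_mem (show τ ∈ Ioo α β from ⟨lt_of_le_of_lt hs.1 hτ.1,
      lt_of_lt_of_le hτ.2 ht.2⟩) k
  have hGI : ∀ t ∈ G, t ∈ Icc α β := fun t ht => Ioo_subset_Icc_self (hG ht)
  have hnn : ∀ s t, 0 ≤ ∫ τ in Ioo s t, k τ := fun s t =>
    setIntegral_nonneg measurableSet_Ioo fun τ _ => hk0 τ
  have hfK : ∀ s ∈ G, ∀ t ∈ G, |f t - f s| ≤ |K t - K s| := by
    intro s hs t ht
    rcases le_total s t with h | h
    · rw [hKd s (hGI s hs) t (hGI t ht) h, abs_of_nonneg (hnn s t)]
      exact hf s hs t ht h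
    · rw [abs_sub_comm (K t), hKd t (hGI t ht) s (hGI s hs) h, abs_of_nonneg (hnn t s),
        abs_sub_comm]
      exact hf t ht s hs h
  have hinv : ∀ y ∈ K '' G, Function.invFunOn K G y ∈ G ∧ K (Function.invFunOn K G y) = y := by
    intro y hy
    exact ⟨Function.invFunOn_mem hy, Function.invFunOn_eq hy⟩
  set F0 : ℝ → ℝ := fun y => f (Function.invFunOn K G y) with hF0
  have hL : LipschitzOnWith 1 F0 (K '' G) := by
    rw [lipschitzOnWith_iff_dist_le_mul]
    intro y hy z hz
    obtain ⟨hy1, hy2⟩ := hinv y hy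
    obtain ⟨hz1, hz2⟩ := hinv z hz
    have := hfK _ hz1 _ hy1
    rw [hy2, hz2] at this
    simpa [Real.dist_eq, hF0] using this
  obtain ⟨g, hg, hEq⟩ := hL.extend_real
  refine ⟨fun t => g (K t), ?_, hg.continuous.comp hKc, ?_⟩
  · intro t ht
    have h1 : g (K t) = F0 (K t) := (hEq (mem_image_of_mem K ht)).symm
    show g (K t) = f t
    rw [h1]
    obtain ⟨h2, h3⟩ := hinv (K t) (mem_image_of_mem K ht)
    have h4 := hfK t ht _ h2
    rw [h3, sub_self, abs_zero] at h4
    have h5 := abs_nonpos_iff.1 h4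
    simp only [hF0]
    linarith
  · intro s hs t ht hst
    have h1 := hg.dist_le_mul (K t) (K s)
    simp only [Real.dist_eq, NNReal.coe_one, one_mul] at h1
    refine h1.trans ?_
    rw [hKd s hs t ht hst, abs_of_nonneg (hnn s t)]

end Pool.Agent.Y494.NS
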