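import Pool.Agent.Y494.NS.SUMB

/-!
Counting points with much energy far away or with a fast mean velocity (helper8's S_CFP).
-/

open MeasureTheory Set Metric Filter Topology
open scoped ContDiff

namespace Pool.Agent.Y494.NS.Cfp

open H459R3.NS W221.NS Pool.Agent.Y8 Pool.Agent.Y494.NS.Sumb

theorem trunc1 {a s m : ℝ} (ha : 0 ≤ a) (hs : 0 < s) (hm : 0 < m) :
    a ≤ m ^ 3 + (m ^ 2)⁻¹ * (s * a + (s ^ 2)⁻¹ * a ^ 3) := by
  rcases le_total a (m ^ 3) with h | h
  · have : 0 ≤ (m ^ 2)⁻¹ * (s * a + (s ^ 2)⁻¹ * a ^ 3) := by positivity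
    linarith
  · have h1 : m ^ 2 ≤ s + (s ^ 2)⁻¹ * a ^ 2 := by
      rcases le_total (m ^ 2) s with h2 | h2
      · have : 0 ≤ (s ^ 2)⁻¹ * a ^ 2 := by positivity
        linarith
      · have h3 : m ^ 2 ≤ (s ^ 2)⁻¹ * a ^ 2 := by
          rw [inv_mul_eq_div, le_div_iff₀ (by positivity)]
          calc m ^ 2 * s ^ 2 ≤ m ^ 2 * (m ^ 2) ^ 2 := by gcongr
            _ = (m ^ 3) ^ 2 := by ring
            _ ≤ a ^ 2 := by gcongr
        linarith
    have h2 : a ≤ (m ^ 2)⁻¹ * (s * a + (s ^ 2)⁻¹ * a ^ 3) := by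
      rw [inv_mul_eq_div, le_div_iff₀ (by positivity)]
      calc a * m ^ 2 ≤ a * (s + (s ^ 2)⁻¹ * a ^ 2) := mul_le_mul_of_nonneg_left h1 ha
        _ = _ := by ring
    have : 0 < m ^ 3 := by positivity
    linarith

theorem trunc2 {a s l : ℝ} (ha : 0 ≤ a) (hs : 0 < s) (hl : 0 < l) :
    √a ≤ l ^ 3 + (l ^ 7)⁻¹ * (s * a + (s ^ 2)⁻¹ * a ^ 3) := by
  set b := √a with hb
  have hb0 : 0 ≤ b := Real.sqrt_nonneg a
  have hab : a = b ^ 2 := (Real.sq_sqrt ha).symm
  rw [hab]
  rcases le_total b (l ^ 3) with h | h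
  · have : 0 ≤ (l ^ 7)⁻¹ * (s * b ^ 2 + (s ^ 2)⁻¹ * (b ^ 2) ^ 3) := by positivity
    linarith
  · have h1 : l ^ 7 ≤ s * b + (s ^ 2)⁻¹ * b ^ 5 := by
      rcases le_total (l ^ 4) s with h2 | h2
      · have h3 : 0 ≤ (s ^ 2)⁻¹ * b ^ 5 := by positivity
        have h4 : l ^ 4 * l ^ 3 ≤ s * b := mul_le_mul h2 h (by positivity) hs.le
        calc l ^ 7 = l ^ 4 * l ^ 3 := by ring
          _ ≤ s * b := h4
          _ ≤ _ := by linarith
      · have h3 : l ^ 7 ≤ (s ^ 2)⁻¹ * b ^ 5 := by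
          rw [inv_mul_eq_div, le_div_iff₀ (by positivity)]
          calc l ^ 7 * s ^ 2 ≤ l ^ 7 * (l ^ 4) ^ 2 := by gcongr
            _ = (l ^ 3) ^ 5 := by ring
            _ ≤ b ^ 5 := by gcongr
        have : 0 ≤ s * b := by positivity
        linarith
    have h2 : b ≤ (l ^ 7)⁻¹ * (s * b ^ 2 + (s ^ 2)⁻¹ * (b ^ 2) ^ 3) := by
      rw [inv_mul_eq_div, le_div_iff₀ (by positivity)]
      calc b * l ^ 7 ≤ b * (s * b + (s ^ 2)⁻¹ * b ^ 5) := mul_le_mul_of_nonneg_left h1 hb0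
        _ = _ := by ring
    have : 0 < l ^ 3 := by positivity
    linarith

/-- The weight. -/
noncomputable def sw (E : ℝ) (u : V → V) : ℝ := 1 + E ^ 2 + enstrophy u

/-- The density with `hh ≥ |u|^(10/3)`. -/
noncomputable def hh (E : ℝ) (u : V → V) (x : V) : ℝ :=
  sw E u * nsq u x + (sw E u ^ 2)⁻¹ * nsq u x ^ 3

theorem sw_pos (E : ℝ) (u : V → V) : 0 < sw E u := by
  unfold sw
  have := enst_nn u
  positivity

theorem hh_nn (E : ℝ) (u : V → V) (x : V) : 0 ≤ hh E u x := by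
  unfold hh
  have := sw_pos E u
  have := nsq_nn u x
  positivity

theorem hh_cont (E : ℝ) {u : V → V} (hu : ContDiff ℝ ∞ u) : Continuous (hh E u) := by
  unfold hh
  have := (nsq_sm hu).continuous
  fun_prop

theorem hh_per (E : ℝ) {u : V → V} (hu : Per u) : Per (hh E u) := by
  intro i x
  unfold hh
  rw [nsq_per hu i x]

theorem hh_cube : ∃ C : ℝ, 0 < C ∧ ∀ (E : ℝ) (u : V → V), SPV u → energy u ≤ E ^ 2 →
    ∫ x in cube, hh E u x ≤ (E ^ 2 + C) * sw E u := by
  obtain ⟨C, hC, h⟩ := sob_cube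
  refine ⟨C, hC, fun E u hu hE => ?_⟩
  have h1 := h u hu
  have hs := sw_pos E u
  have hn := (nsq_sm hu.1).continuous
  have e : ∫ x in cube, hh E u x = sw E u * energy u + (sw E u ^ 2)⁻¹ * ∫ x in cube, nsq u x ^ 3 := by
    unfold hh
    have hn3 : Continuous fun x => nsq u x ^ 3 := hn.pow 3
    rw [integral_add ((cube_int hn).const_mul _) ((cube_int hn3).const_mul _),
      integral_const_mul, integral_const_mul, energy_eq hu.1]
  rw [e]
  have h2 : sw E u * energy u ≤ sw E u * E ^ 2 := mul_le_mul_of_nonneg_left hE hs.le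
  have h3 : (sw E u ^ 2)⁻¹ * ∫ x in cube, nsq u x ^ 3 ≤ C * sw E u := by
    rw [inv_mul_eq_div, div_le_iff₀ (by positivity)]
    refine h1.trans ?_
    have h4 : enstrophy u + energy u ≤ sw E u := by unfold sw; linarith
    have h5 : 0 ≤ enstrophy u + energy u := add_nonneg (enst_nn u) (energy_nn u)
    calc C * (enstrophy u + energy u) ^ 3 ≤ C * sw E u ^ 3 := by gcongr
      _ = _ := by ring
  linarith

section

variable {T E D : ℝ} {G : Set ℝ} {u : ℝ → V → V} {p : ℝ → V → ℝ}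

/-- Packing with a majorant. -/
theorem pack' {C : ℝ} (hC : 0 ≤ C) (hO : OverC C) (h : Turb 1 T E D G u p) {n : ℕ}
    {S : Finset (ℝ × V)} (hsep : Sep (rr n) S)
    (hS : ∀ z ∈ S, 0 ≤ z.1 - rr n ^ 2 ∧ z.1 + rr n ^ 2 ≤ T ∧ z.2 ∈ cube) {ρ : ℝ}
    (hρ : rr n ≤ ρ) (hρ2 : ρ ≤ 2) {F : ℝ → V → ℝ} (hc : ∀ t ∈ G, Continuous (F t))
    (hp : ∀ t ∈ G, Per (F t)) (h0 : ∀ t ∈ G, ∀ x, 0 ≤ F t x)
    (hint : ∀ a : V, IntegrableOn (fun t => ∫ x in ball a ρ, F t x) G) {g : ℝ → ℝ}
    (hg : IntegrableOn g G) (hI : ∀ t ∈ G, ∫ x in cube, F t x ≤ g t) :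
    ∑ z ∈ S, ∫ t in II n z.1, ∫ x in ball z.2 ρ, F t x ≤
      C * (ρ / rr n) ^ 3 * ∫ t in G, g t := by
  have hr := rr_pos n
  have hρ0 : 0 < ρ := hr.trans_le hρ
  have e1 : ∑ z ∈ S, ∫ t in II n z.1, ∫ x in ball z.2 ρ, F t x =
      ∫ t in G, ∑ z ∈ S, (II n z.1).indicator (fun t => ∫ x in ball z.2 ρ, F t x) t := by
    rw [integral_finsetSum]
    · exact Finset.sum_congr rfl fun z hz => II_eq h (hS z hz).1 (hS z hz).2.1 _
    · intro z _
      exact (hint z.2).indicator (by unfold II; exact measurableSet_Ioo)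
  rw [e1, ← integral_const_mul]
  refine setIntegral_mono_on ?_ (hg.const_mul _) h.openG.measurableSet ?_
  · refine integrable_finsetSum _ fun z _ => ?_
    exact (hint z.2).indicator (by unfold II; exact measurableSet_Ioo)
  · intro t ht
    have h1 := hO (rr n) S (rr_pos n) (rr_le n) hsep (fun z hz => (hS z hz).2.2)
      t ρ hρ hρ2 (F t) (hc t ht) (hp t ht) (h0 t ht)
    refine le_trans (le_of_eq ?_) (h1.trans (mul_le_mul_of_nonneg_left (hI t ht) (by positivity)))
    rw [Finset.sum_filter]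
    refine Finset.sum_congr rfl fun z _ => ?_
    by_cases hz : t ∈ II n z.1
    · rw [indicator_of_mem hz, if_pos (mem_II.1 hz)]
    · rw [indicator_of_notMem hz, if_neg (fun h => hz (mem_II.2 h))]

theorem sw_int (h : Turb 1 T E D G u p) : IntegrableOn (fun t => sw E (u t)) G := by
  unfold sw
  exact (integrableOn_const h.volG).add h.enst_int

theorem sw_le (h : Turb 1 T E D G u p) : ∫ t in G, sw E (u t) ≤ (1 + E ^ 2) * |T| + D := by
  unfold sw
  have hci : Integrable (fun _ : ℝ => 1 + E ^ 2) (volume.restrict G) := integrableOn_const h.volG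
  rw [integral_add hci h.enst_int]
  refine add_le_add ?_ h.enst_le
  rw [setIntegral_const, smul_eq_mul, mul_comm]
  refine mul_le_mul_of_nonneg_left ?_ (by positivity)
  have h1 : (volume : Measure ℝ).real G ≤ (volume : Measure ℝ).real (Ioo 0 T) :=
    measureReal_mono h.subG (by simp)
  refine h1.trans ?_
  rw [Real.volume_real_Ioo, sub_zero]
  exact max_le (le_abs_self T) (abs_nonneg T)

theorem hh_G (h : Turb 1 T E D G u p) (ρ : ℝ) (a : V) :
    IntegrableOn (fun t => ∫ x in ball a ρ, hh E (u t) x) G := by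
  obtain ⟨K, hK, hb⟩ := ball_le ρ
  obtain ⟨C, hC, hC'⟩ := hh_cube
  have hm : AEStronglyMeasurable (fun t => ∫ x in ball a ρ, hh E (u t) x) (volume.restrict G) := by
    have m1 : AEStronglyMeasurable (fun t => sw E (u t)) (volume.restrict G) :=
      (sw_int h).aestronglyMeasurable
    have m2 : AEStronglyMeasurable (fun t => ∫ x in ball a ρ, nsq (u t) x) (volume.restrict G) :=
      (pint_cont h.openG (F := fun t x => nsq (u t) x)
        (nsq_joint h.smooth_u).continuousOn a ρ).aestronglyMeasurable h.openG.measurableSet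
    have m3 : AEStronglyMeasurable (fun t => ∫ x in ball a ρ, nsq (u t) x ^ 3) (volume.restrict G) :=
      (pint_cont h.openG (F := fun t x => nsq (u t) x ^ 3)
        ((nsq_joint h.smooth_u).continuousOn.pow 3) a ρ).aestronglyMeasurable h.openG.measurableSet
    have m4 : AEStronglyMeasurable (fun t => (sw E (u t) ^ 2)⁻¹) (volume.restrict G) :=
      ((m1.aemeasurable.pow_const 2).inv).aestronglyMeasurable
    refine ((m1.mul m2).add (m4.mul m3)).congr ?_
    filter_upwards [ae_restrict_mem h.openG.measurableSet] with t ht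
    have hn := (nsq_sm (h.spv ht).1).continuous
    simp only [Pi.add_apply, Pi.mul_apply]
    unfold hh
    have hn3 : Continuous fun x => nsq (u t) x ^ 3 := hn.pow 3
    rw [integral_add ((ballint hn a ρ).const_mul _) ((ballint hn3 a ρ).const_mul _),
      integral_const_mul, integral_const_mul]
  refine Integrable.mono' (((sw_int h).const_mul (E ^ 2 + C)).const_mul K) hm ?_
  filter_upwards [ae_restrict_mem h.openG.measurableSet] with t ht
  have hu := h.spv ht
  rw [Real.norm_eq_abs, abs_of_nonneg (integral_nonneg fun x => hh_nn _ _ x)]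
  refine (hb _ (hh_cont E hu.1) (hh_per E hu.2) (hh_nn E _) a).trans ?_
  exact mul_le_mul_of_nonneg_left (hC' E (u t) hu (h.energy_le t ht)) hK.le

end

/-- The packing bound for `hh`. -/
theorem hh_pack (hO : S_OVER) : ∀ T E D : ℝ, ∃ L : ℝ, 0 < L ∧
    ∀ (G : Set ℝ) (u : ℝ → V → V) (p : ℝ → V → ℝ), Turb 1 T E D G u p →
    ∀ (n : ℕ) (S : Finset (ℝ × V)), Sep (rr n) S →
    (∀ z ∈ S, 0 ≤ z.1 - rr n ^ 2 ∧ z.1 + rr n ^ 2 ≤ T ∧ z.2 ∈ cube) → ∀ ρ : ℝ, rr n ≤ ρ → ρ ≤ 2 →
      ∑ z ∈ S, ∫ t in II n z.1, ∫ x in ball z.2 ρ, hh E (u t) x ≤ L * (ρ / rr n) ^ 3 := by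
  obtain ⟨C₀, hC₀, hO⟩ := hO
  obtain ⟨C, hC, hC'⟩ := hh_cube
  intro T E D
  refine ⟨C₀ * ((E ^ 2 + C) * ((1 + E ^ 2) * |T| + |D|)) + 1, by positivity,
    fun G u p h n S hsep hS ρ hρ hρ2 => ?_⟩
  have h1 := pack' (F := fun t x => hh E (u t) x) hC₀.le hO h hsep hS hρ hρ2
    (fun t ht => hh_cont E (h.spv ht).1) (fun t ht => hh_per E (h.spv ht).2)
    (fun t _ x => hh_nn E _ x) (fun a => hh_G h ρ a) ((sw_int h).const_mul (E ^ 2 + C))
    (fun t ht => hC' E (u t) (h.spv ht) (h.energy_le t ht))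
  rw [integral_const_mul] at h1
  have hr := rr_pos n
  have hρ0 : 0 < ρ := hr.trans_le hρ
  refine h1.trans ?_
  have h2 : ∫ t in G, sw E (u t) ≤ (1 + E ^ 2) * |T| + |D| :=
    (sw_le h).trans (by linarith [le_abs_self D])
  calc C₀ * (ρ / rr n) ^ 3 * ((E ^ 2 + C) * ∫ t in G, sw E (u t))
      ≤ C₀ * (ρ / rr n) ^ 3 * ((E ^ 2 + C) * ((1 + E ^ 2) * |T| + |D|)) := by gcongr
    _ = C₀ * ((E ^ 2 + C) * ((1 + E ^ 2) * |T| + |D|)) * (ρ / rr n) ^ 3 := by ring
    _ ≤ _ := mul_le_mul_of_nonneg_right (by linarith) (by positivity)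

/-- A geometric sum. -/
theorem gsum (n m : ℕ) (r : ℝ) (hr : 0 < r) :
    ∑ k ∈ (Finset.range n).filter (fun k => m ≤ k), (2 ^ k * r)⁻¹ ≤ 2 * (2 ^ m * r)⁻¹ := by
  have h1 : (Finset.range n).filter (fun k => m ≤ k) ⊆ Finset.Ico m (m + n) := by
    intro k hk
    rw [Finset.mem_filter, Finset.mem_range] at hk
    rw [Finset.mem_Ico]
    omega
  refine (Finset.sum_le_sum_of_subset_of_nonneg h1 fun _ _ _ => by positivity).trans ?_
  rw [Finset.sum_Ico_eq_sum_range, Nat.add_sub_cancel_left]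
  have h2 : ∀ i : ℕ, ((2 : ℝ) ^ (m + i) * r)⁻¹ = (2 ^ m * r)⁻¹ * (1 / 2) ^ i := by
    intro i
    rw [pow_add]
    field_simp
    rw [← mul_pow]
    norm_num
  simp_rw [h2]
  rw [← Finset.mul_sum, mul_comm]
  refine mul_le_mul_of_nonneg_right ?_ (by positivity)
  rw [geom_sum_eq (by norm_num)]
  have : 0 < (1 / 2 : ℝ) ^ n := by positivity
  rw [div_le_iff_of_neg (by norm_num)]
  linarith

theorem II_vol (n : ℕ) (a : ℝ) : (volume : Measure ℝ).real (II n a) = 2 * rr n ^ 2 := by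
  unfold II
  have := rr_pos n
  rw [Real.volume_real_Ioo_of_le (by nlinarith)]
  ring

section

variable {T E D : ℝ} {G : Set ℝ} {u : ℝ → V → V} {p : ℝ → V → ℝ}

theorem II_mem (h : Turb 1 T E D G u p) {n : ℕ} {a : ℝ} (h1 : 0 ≤ a - rr n ^ 2)
    (h2 : a + rr n ^ 2 ≤ T) : ∀ᵐ t ∂(volume.restrict (II n a)), t ∈ G := by
  rw [ae_iff, Measure.restrict_apply' (by unfold II; exact measurableSet_Ioo)]
  refine measure_mono_null ?_ h.fullG
  intro t ht
  exact ⟨⟨h1.trans_lt ht.2.1, ht.2.2.trans_le h2⟩, ht.1⟩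

theorem A2_trunc (E : ℝ) {w : V → V} (hw : ContDiff ℝ ∞ w) (a : V) {ρ m : ℝ} (hρ : 0 < ρ) (hm : 0 < m) :
    A2 a ρ w ≤ (2 * ρ) ^ 3 * m ^ 3 + (m ^ 2)⁻¹ * ∫ x in ball a ρ, hh E w x := by
  unfold A2
  have hi := ballint (hh_cont E hw) a ρ
  calc ∫ z in ball a ρ, nsq w z ≤ ∫ z in ball a ρ, (m ^ 3 + (m ^ 2)⁻¹ * hh E w z) := by
        refine setIntegral_mono (ballint (nsq_sm hw).continuous a ρ)
          ((ballint continuous_const a ρ).add (hi.const_mul _)) fun z => ?_
        exact trunc1 (nsq_nn w z) (sw_pos E w) hm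
    _ = _ := by
        rw [integral_add (ballint continuous_const a ρ) (hi.const_mul _), setIntegral_const,
          ball_vol a hρ, integral_const_mul, smul_eq_mul]

theorem mo_trunc : ∃ K : ℝ, 1 ≤ K ∧ ∀ (E : ℝ) (w : V → V), ContDiff ℝ ∞ w → ∀ (a : V) (r l : ℝ),
    0 < r → 0 < l →
    ‖mo r w a‖ ≤ K * (8 * l ^ 3 + (l ^ 7)⁻¹ * (r ^ 3)⁻¹ * ∫ x in ball a r, hh E w x) := by
  obtain ⟨K, hK, hK1, -, hK3, hK4⟩ := th_bd
  refine ⟨K, hK, fun E w hw a r l hr hl => ?_⟩
  have hI0 : 0 ≤ ∫ x in ball a r, hh E w x := integral_nonneg fun x => hh_nn E w x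
  rw [pi_norm_le_iff_of_nonneg (by positivity)]
  intro i
  have hc := hw.continuous
  have hwi : Continuous fun z => w z i := (continuous_apply i).comp hc
  have hi := ballint (hh_cont E hw) a r
  rw [mo_eq hr, ← ball_int_eq (a := a) (R := r) (f := fun z => w z i * kx r a z)
    (fun z hz => by rw [kx_z hr hz, mul_zero])]
  calc ‖∫ z in ball a r, w z i * kx r a z‖
      ≤ ∫ z in ball a r, K * (r ^ 3)⁻¹ * (l ^ 3 + (l ^ 7)⁻¹ * hh E w z) := by
        refine norm_integral_le_of_norm_le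
          (((ballint continuous_const a r).add (hi.const_mul _)).const_mul _) (ae_of_all _ fun z => ?_)
        rw [norm_mul, Real.norm_eq_abs, Real.norm_eq_abs, mul_comm]
        have h2 := (kx_bd hK1 hK3 hK4 hr a z).1
        have h3 : |w z i| ≤ l ^ 3 + (l ^ 7)⁻¹ * hh E w z :=
          (abs_comp_le w z i).trans (trunc2 (nsq_nn w z) (sw_pos E w) hl)
        exact mul_le_mul h2 h3 (abs_nonneg _) (by positivity)
    _ = _ := by
        rw [integral_const_mul, integral_add (ballint continuous_const a r) (hi.const_mul _),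
          setIntegral_const, ball_vol a hr, integral_const_mul, smul_eq_mul]
        field_simp
        ring

end

/-- The powers of two. -/
theorem pw (n j : ℕ) : ∃ w : ℝ, 0 < w ∧ w ^ 3 = 4 ^ j / rr n ∧
    (w ^ 10)⁻¹ * (rr n ^ 5)⁻¹ = (2 : ℝ) ^ (-(20 / 3 : ℝ) * j) * (2 : ℝ) ^ ((5 / 3 : ℝ) * n) := by
  refine ⟨(2 : ℝ) ^ ((2 * j + n) / 3 : ℝ), by positivity, ?_, ?_⟩
  · rw [← Real.rpow_natCast, ← Real.rpow_mul (by norm_num)]
    unfold rr
    have e1 : (4 : ℝ) ^ j / (1 / 2) ^ n = 2 ^ (2 * j + n) := by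
      rw [one_div, inv_pow, div_inv_eq_mul, pow_add, pow_mul]
      norm_num
    rw [e1, ← Real.rpow_natCast]
    congr 1
    push_cast
    ring
  · have e1 : (rr n ^ 5)⁻¹ = (2 : ℝ) ^ ((5 : ℝ) * n) := by
      unfold rr
      rw [← pow_mul, one_div, inv_pow, inv_inv, ← Real.rpow_natCast]
      congr 1
      push_cast
      ring
    have e2 : (((2 : ℝ) ^ ((2 * j + n) / 3 : ℝ)) ^ 10)⁻¹ = (2 : ℝ) ^ (-(10 * ((2 * j + n) / 3)) : ℝ) := by
      rw [← Real.rpow_natCast, ← Real.rpow_mul (by norm_num), ← Real.rpow_neg (by norm_num)]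
      congr 1
      push_cast
      ring
    rw [e1, e2, ← Real.rpow_add (by norm_num), ← Real.rpow_add (by norm_num)]
    congr 1
    ring

theorem t_CFP : S_OVER → S_CFP := by
  intro hO T E D δ c κ₀ hδ hc
  obtain ⟨L, hL, hpk⟩ := hh_pack hO T E D
  obtain ⟨K, hK, hmo⟩ := mo_trunc
  have hK0 : 0 < K := by linarith
  -- cube roots
  obtain ⟨q, hq, hq3⟩ : ∃ q : ℝ, 0 < q ∧ q ^ 3 = δ * 2 ^ κ₀ / 64 := by
    refine ⟨(δ * 2 ^ κ₀ / 64) ^ (1 / 3 : ℝ), by positivity, ?_⟩
    rw [← Real.rpow_natCast, ← Real.rpow_mul (by positivity)]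
    norm_num
  obtain ⟨q', hq', hq3'⟩ : ∃ q : ℝ, 0 < q ∧ q ^ 3 = c / (32 * K) := by
    refine ⟨(c / (32 * K)) ^ (1 / 3 : ℝ), by positivity, ?_⟩
    rw [← Real.rpow_natCast, ← Real.rpow_mul (by positivity)]
    norm_num
  set C1 : ℝ := 4 * L / (δ * 2 ^ κ₀ * q ^ 2) with hC1
  set C2 : ℝ := 2 * K * L / (c * q' ^ 7) with hC2
  refine ⟨C1 + C2, by positivity, fun G u p h n j S hsep hS hcase => ?_⟩
  obtain ⟨w, hw, hw3, hw10⟩ := pw n j
  have hr := rr_pos n
  have hr1 := rr_le n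
  have hpk' := hpk G u p h n S hsep hS
  rw [← hw10]
  rw [← hw3] at hcase
  have hP : 0 < (w ^ 10)⁻¹ * (rr n ^ 5)⁻¹ := by positivity
  rcases hcase with hF | hF
  · -- much energy far away
    have goal : (S.card : ℝ) ≤ C1 * ((w ^ 10)⁻¹ * (rr n ^ 5)⁻¹) := by
      set m : ℝ := q * w ^ 2 with hm
      have hm0 : 0 < m := by positivity
      set M : ℕ := 2 * j + κ₀ with hM
      set A := (Finset.range n).filter (fun k => M ≤ k) with hA
      have hρ : ∀ k ∈ A, rr n ≤ 2 ^ k * rr n ∧ 2 ^ k * rr n ≤ 2 := by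
        intro k hk
        have hk' : k < n := Finset.mem_range.1 (Finset.mem_filter.1 hk).1
        constructor
        · have : (1 : ℝ) ≤ 2 ^ k := one_le_pow₀ (by norm_num)
          nlinarith
        · have : (2 : ℝ) ^ k * rr n ≤ 1 := by
            unfold rr
            rw [one_div, inv_pow, ← div_eq_mul_inv, div_le_one (by positivity)]
            exact pow_le_pow_right₀ (by norm_num) hk'.le
          linarith
      have hR : (2 : ℝ) ^ M * rr n = 2 ^ κ₀ * w ^ 3 * rr n ^ 2 := by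
        rw [hM, hw3, pow_add, pow_mul]
        field_simp
        norm_num
      have e1 : ∀ z ∈ S, ∫ t in II n z.1, NF n M (u t) z.2 ≤
          δ * w ^ 3 / 2 + (m ^ 2)⁻¹ * ∑ k ∈ A, ((2 ^ k * rr n) ^ 4)⁻¹ *
            ∫ t in II n z.1, ∫ x in ball z.2 (2 ^ k * rr n), hh E (u t) x := by
        intro z hz
        have hzi : ∀ k, IntegrableOn (fun t => ∫ x in ball z.2 (2 ^ k * rr n), hh E (u t) x) (II n z.1) :=
          fun k => II_int h (hS z hz).1 (hS z hz).2.1 (hh_G h _ _)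
        have hsi : IntegrableOn (fun t => ∑ k ∈ A, ((2 ^ k * rr n) ^ 4)⁻¹ *
            ∫ x in ball z.2 (2 ^ k * rr n), hh E (u t) x) (II n z.1) :=
          integrable_finsetSum _ fun k _ => (hzi k).const_mul _
        have hci : IntegrableOn (fun _ : ℝ => 16 * m ^ 3 / (2 ^ M * rr n)) (II n z.1) :=
          integrableOn_const (by unfold II; simp)
        have b1 : ∫ t in II n z.1, NF n M (u t) z.2 ≤ ∫ t in II n z.1, (16 * m ^ 3 / (2 ^ M * rr n) +
            (m ^ 2)⁻¹ * ∑ k ∈ A, ((2 ^ k * rr n) ^ 4)⁻¹ *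
              ∫ x in ball z.2 (2 ^ k * rr n), hh E (u t) x) := by
          refine integral_mono_of_nonneg (ae_of_all _ fun t => ?_) (hci.add (hsi.const_mul _)) ?_
          · unfold NF
            refine Finset.sum_nonneg fun k _ => mul_nonneg (by positivity) ?_
            exact integral_nonneg fun x => nsq_nn _ x
          · filter_upwards [II_mem h (hS z hz).1 (hS z hz).2.1] with t ht
            unfold NF
            calc ∑ k ∈ A, ((2 ^ k * rr n) ^ 4)⁻¹ * A2 z.2 (2 ^ k * rr n) (u t)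
                ≤ ∑ k ∈ A, ((2 ^ k * rr n) ^ 4)⁻¹ * ((2 * (2 ^ k * rr n)) ^ 3 * m ^ 3 +
                  (m ^ 2)⁻¹ * ∫ x in ball z.2 (2 ^ k * rr n), hh E (u t) x) := by
                  refine Finset.sum_le_sum fun k _ => mul_le_mul_of_nonneg_left ?_ (by positivity)
                  exact A2_trunc E (h.spv ht).1 z.2 (by positivity) hm0
              _ = 8 * m ^ 3 * ∑ k ∈ A, (2 ^ k * rr n)⁻¹ + (m ^ 2)⁻¹ * ∑ k ∈ A,
                  ((2 ^ k * rr n) ^ 4)⁻¹ * ∫ x in ball z.2 (2 ^ k * rr n), hh E (u t) x := by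
                  rw [Finset.mul_sum, Finset.mul_sum, ← Finset.sum_add_distrib]
                  refine Finset.sum_congr rfl fun k _ => ?_
                  rw [mul_add]
                  congr 1
                  · have : (0 : ℝ) < 2 ^ k * rr n := by positivity
                    field_simp
                    norm_num
                  · ring
              _ ≤ 8 * m ^ 3 * (2 * (2 ^ M * rr n)⁻¹) + (m ^ 2)⁻¹ * ∑ k ∈ A,
                  ((2 ^ k * rr n) ^ 4)⁻¹ * ∫ x in ball z.2 (2 ^ k * rr n), hh E (u t) x := by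
                  have := gsum n M (rr n) hr
                  gcongr
              _ = _ := by ring
        refine b1.trans ?_
        rw [integral_add hci (hsi.const_mul _), integral_const_mul,
          integral_finsetSum _ fun k _ => (hzi k).const_mul _, setIntegral_const, II_vol, smul_eq_mul]
        simp only [integral_const_mul]
        refine add_le_add (le_of_eq ?_) le_rfl
        rw [hR, hm, mul_pow, hq3]
        field_simp
        ring
      have e2 : (S.card : ℝ) * (δ * w ^ 3 / 2) ≤ (m ^ 2)⁻¹ * (L * (rr n ^ 3)⁻¹ * (2 * (2 ^ M * rr n)⁻¹)) := by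
        have f1 : (S.card : ℝ) * (δ * w ^ 3 / 2) ≤ ∑ z ∈ S, (m ^ 2)⁻¹ * ∑ k ∈ A, ((2 ^ k * rr n) ^ 4)⁻¹ *
            ∫ t in II n z.1, ∫ x in ball z.2 (2 ^ k * rr n), hh E (u t) x := by
          rw [← nsmul_eq_mul, ← Finset.sum_const]
          refine Finset.sum_le_sum fun z hz => ?_
          have := e1 z hz
          have := hF z hz
          linarith
        refine f1.trans ?_
        rw [← Finset.mul_sum]
        refine mul_le_mul_of_nonneg_left ?_ (by positivity)
        rw [Finset.sum_comm]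
        calc ∑ k ∈ A, ∑ z ∈ S, ((2 ^ k * rr n) ^ 4)⁻¹ *
              ∫ t in II n z.1, ∫ x in ball z.2 (2 ^ k * rr n), hh E (u t) x
            ≤ ∑ k ∈ A, L * (rr n ^ 3)⁻¹ * (2 ^ k * rr n)⁻¹ := by
              refine Finset.sum_le_sum fun k hk => ?_
              rw [← Finset.mul_sum]
              have g1 := hpk' (2 ^ k * rr n) (hρ k hk).1 (hρ k hk).2
              refine (mul_le_mul_of_nonneg_left g1 (by positivity)).trans (le_of_eq ?_)
              have : (0 : ℝ) < 2 ^ k := by positivity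
              field_simp
          _ = L * (rr n ^ 3)⁻¹ * ∑ k ∈ A, (2 ^ k * rr n)⁻¹ := by rw [Finset.mul_sum]
          _ ≤ _ := by
              have := gsum n M (rr n) hr
              gcongr
      have e3 : (m ^ 2)⁻¹ * (L * (rr n ^ 3)⁻¹ * (2 * (2 ^ M * rr n)⁻¹)) =
          C1 * ((w ^ 10)⁻¹ * (rr n ^ 5)⁻¹) * (δ * w ^ 3 / 2) := by
        rw [hR, hm, hC1]
        field_simp
        ring
      rw [e3] at e2
      exact le_of_mul_le_mul_right e2 (by positivity)
    refine goal.trans (mul_le_mul_of_nonneg_right ?_ hP.le)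
    have : 0 < C2 := by positivity
    linarith
  · -- fast mean velocity
    have goal : (S.card : ℝ) ≤ C2 * ((w ^ 10)⁻¹ * (rr n ^ 5)⁻¹) := by
      set l : ℝ := q' * w with hl
      have hl0 : 0 < l := by positivity
      have e1 : ∀ z ∈ S, ∫ t in II n z.1, ‖mo (rr n) (u t) z.2‖ ≤ c * (rr n ^ 2 * w ^ 3) / 2 +
          K * ((l ^ 7)⁻¹ * (rr n ^ 3)⁻¹) * ∫ t in II n z.1, ∫ x in ball z.2 (rr n), hh E (u t) x := by
        intro z hz
        have hzi : IntegrableOn (fun t => ∫ x in ball z.2 (rr n), hh E (u t) x) (II n z.1) :=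
          II_int h (hS z hz).1 (hS z hz).2.1 (hh_G h _ _)
        have hci : IntegrableOn (fun _ : ℝ => K * (8 * l ^ 3)) (II n z.1) :=
          integrableOn_const (by unfold II; simp)
        have b1 : ∫ t in II n z.1, ‖mo (rr n) (u t) z.2‖ ≤ ∫ t in II n z.1, (K * (8 * l ^ 3) +
            K * ((l ^ 7)⁻¹ * (rr n ^ 3)⁻¹) * ∫ x in ball z.2 (rr n), hh E (u t) x) := by
          refine integral_mono_of_nonneg (ae_of_all _ fun t => norm_nonneg _)
            (hci.add (hzi.const_mul _)) ?_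
          filter_upwards [II_mem h (hS z hz).1 (hS z hz).2.1] with t ht
          refine (hmo E (u t) (h.spv ht).1 z.2 (rr n) l hr hl0).trans (le_of_eq ?_)
          ring
        refine b1.trans ?_
        rw [integral_add hci (hzi.const_mul _), setIntegral_const, II_vol, smul_eq_mul,
          integral_const_mul]
        refine add_le_add (le_of_eq ?_) le_rfl
        rw [hl, mul_pow, hq3']
        field_simp
        ring
      have e2 : (S.card : ℝ) * (c * (rr n ^ 2 * w ^ 3) / 2) ≤ K * ((l ^ 7)⁻¹ * (rr n ^ 3)⁻¹) * L := by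
        have f1 : (S.card : ℝ) * (c * (rr n ^ 2 * w ^ 3) / 2) ≤ ∑ z ∈ S,
            K * ((l ^ 7)⁻¹ * (rr n ^ 3)⁻¹) * ∫ t in II n z.1, ∫ x in ball z.2 (rr n), hh E (u t) x := by
          rw [← nsmul_eq_mul, ← Finset.sum_const]
          refine Finset.sum_le_sum fun z hz => ?_
          have := e1 z hz
          have := hF z hz
          linarith
        refine f1.trans ?_
        rw [← Finset.mul_sum]
        refine mul_le_mul_of_nonneg_left ?_ (by positivity)
        have g1 := hpk' (rr n) le_rfl (by linarith)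
        rwa [div_self hr.ne', one_pow, mul_one] at g1
      have e3 : K * ((l ^ 7)⁻¹ * (rr n ^ 3)⁻¹) * L =
          C2 * ((w ^ 10)⁻¹ * (rr n ^ 5)⁻¹) * (c * (rr n ^ 2 * w ^ 3) / 2) := by
        rw [hl, hC2]
        field_simp
      rw [e3] at e2
      exact le_of_mul_le_mul_right e2 (by positivity)
    refine goal.trans (mul_le_mul_of_nonneg_right ?_ hP.le)
    have : 0 < C1 := by positivity
    linarith

end Pool.Agent.Y494.NS.Cfp
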