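import Pool.Agent.Y8.Stm

/-!
Task KER of helper8: bounds for the derivatives of the cut-off kernel. The kernel without the cut-off
is a homogeneous function of `(r, x)`, smooth away from the origin, so that its derivatives are
homogeneous and bounded by compactness.
-/

open MeasureTheory Set Metric Filter Topology
open scoped ContDiff

namespace Pool.Agent.Y494.NS.Ker

open H459R3.NS Pool.Agent.Y8

/-- space and scale -/
abbrev E := ℝ × V

/-- the complement of the origin -/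
def U : Set E := {0}ᶜ

lemma isOpen_U : IsOpen U := isOpen_compl_singleton

/-- the derivative in the direction of the `i`-th space coordinate -/
noncomputable def Dx (i : Fin 3) (F : E → ℝ) (z : E) : ℝ := fderiv ℝ F z (0, Pi.single i 1)

lemma Dx_smooth {F : E → ℝ} (hF : ContDiffOn ℝ ∞ F U) (i : Fin 3) : ContDiffOn ℝ ∞ (Dx i F) U :=
  (hF.fderiv_of_isOpen isOpen_U (m := ∞) (by norm_cast)).clm_apply contDiffOn_const

lemma Dx_congr {F1 F2 : E → ℝ} {W : Set E} (hW : IsOpen W) (h : EqOn F1 F2 W) (i : Fin 3) :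
    EqOn (Dx i F1) (Dx i F2) W := by
  intro z hz
  have : F1 =ᶠ[𝓝 z] F2 := Filter.eventuallyEq_of_mem (hW.mem_nhds hz) h
  unfold Dx
  rw [this.fderiv_eq]

lemma mem_U {r : ℝ} (hr : 0 < r) (x : V) : ((r, x) : E) ∈ U := by
  intro h
  have := congrArg Prod.fst (show ((r, x) : E) = 0 from h)
  exact hr.ne' this

lemma diffAt {F : E → ℝ} (hF : ContDiffOn ℝ ∞ F U) {z : E} (hz : z ∈ U) :
    DifferentiableAt ℝ F z :=
  (hF.contDiffAt (isOpen_U.mem_nhds hz)).differentiableAt (by norm_num)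

lemma pd_slice {F : E → ℝ} (hF : ContDiffOn ℝ ∞ F U) (i : Fin 3) {r : ℝ} (hr : 0 < r) :
    pd i (fun y => F (r, y)) = fun y => Dx i F (r, y) := by
  ext y
  unfold pd Dx
  have h1 : HasFDerivAt F (fderiv ℝ F (r, y)) (r, y) := (diffAt hF (mem_U hr y)).hasFDerivAt
  have h2 : HasFDerivAt (fun y : V => ((r, y) : E)) (ContinuousLinearMap.inr ℝ ℝ V) y :=
    hasFDerivAt_prodMk_right r y
  have h3 := h1.comp y h2
  rw [show (fun y => F (r, y)) = F ∘ (fun y : V => ((r, y) : E)) from rfl, h3.fderiv]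
  simp

/-- homogeneous of degree `-m` -/
def Hom (m : ℕ) (F : E → ℝ) : Prop := ∀ l : ℝ, 0 < l → ∀ z ∈ U, F (l • z) = (l ^ m)⁻¹ * F z

lemma smul_mem_U {l : ℝ} (hl : 0 < l) {z : E} (hz : z ∈ U) : l • z ∈ U := by
  intro h
  rcases smul_eq_zero.1 (show l • z = 0 from h) with h | h
  · exact hl.ne' h
  · exact hz h

lemma Dx_hom {m : ℕ} {F : E → ℝ} (h : Hom m F) (hF : ContDiffOn ℝ ∞ F U) (i : Fin 3) :
    Hom (m + 1) (Dx i F) := by
  intro l hl z hz
  have h1 : (fun w => F (l • w)) =ᶠ[𝓝 z] fun w => (l ^ m)⁻¹ * F w :=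
    Filter.eventuallyEq_of_mem (isOpen_U.mem_nhds hz) fun w hw => h l hl w hw
  have h2 := h1.fderiv_eq (𝕜 := ℝ)
  have h3 : HasFDerivAt (fun w => F (l • w)) ((fderiv ℝ F (l • z)).comp
      (l • ContinuousLinearMap.id ℝ E)) z :=
    (diffAt hF (smul_mem_U hl hz)).hasFDerivAt.comp z ((hasFDerivAt_id z).const_smul l)
  have h4 : HasFDerivAt (fun w => (l ^ m)⁻¹ * F w) ((l ^ m)⁻¹ • fderiv ℝ F z) z :=
    (diffAt hF hz).hasFDerivAt.const_mul _
  rw [h3.fderiv, h4.fderiv] at h2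
  have h5 := congrArg (fun L : E →L[ℝ] ℝ => L (0, Pi.single i 1)) h2
  simp only [ContinuousLinearMap.comp_apply, smul_apply,
    ContinuousLinearMap.id_apply, map_smul, smul_eq_mul] at h5
  show Dx i F (l • z) = (l ^ (m + 1))⁻¹ * Dx i F z
  unfold Dx
  have h6 : l ≠ 0 := hl.ne'
  rw [pow_succ, mul_inv, mul_comm ((l ^ m)⁻¹) l⁻¹, mul_assoc, ← h5]
  field_simp

lemma hom_bound {m : ℕ} {F : E → ℝ} (h : Hom m F) (hF : ContinuousOn F U) :
    ∃ C : ℝ, 0 < C ∧ ∀ r x, 0 < r → |F (r, x)| ≤ C * ((r + ‖x‖) ^ m)⁻¹ := by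
  have hsub : sphere (0 : E) 1 ⊆ U := by
    intro z hz h0
    rw [mem_sphere_zero_iff_norm] at hz
    rw [show z = 0 from h0, norm_zero] at hz
    exact zero_ne_one hz
  obtain ⟨C, hC⟩ := (isCompact_sphere (0 : E) 1).exists_bound_of_continuousOn (hF.mono hsub)
  refine ⟨(|C| + 1) * 2 ^ m, by positivity, ?_⟩
  intro r x hr
  have hz : ((r, x) : E) ∈ U := mem_U hr x
  set z : E := (r, x) with hzdef
  have hn : 0 < ‖z‖ := norm_pos_iff.2 hz
  set w : E := ‖z‖⁻¹ • z with hw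
  have hw1 : w ∈ sphere (0 : E) 1 := by
    rw [mem_sphere_zero_iff_norm, hw, norm_smul, norm_inv, norm_norm, inv_mul_cancel₀ hn.ne']
  have hzw : z = ‖z‖ • w := by
    rw [hw, smul_smul, mul_inv_cancel₀ hn.ne', one_smul]
  have h1 : F z = (‖z‖ ^ m)⁻¹ * F w := by
    conv_lhs => rw [hzw]
    exact h _ hn w (hsub hw1)
  have h2 : |F w| ≤ |C| + 1 := by
    have := hC w hw1
    rw [Real.norm_eq_abs] at this
    linarith [le_abs_self C]
  have h3 : r + ‖x‖ ≤ 2 * ‖z‖ := by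
    have h4 : ‖z‖ = max ‖r‖ ‖x‖ := Prod.norm_mk r x
    have h5 : r ≤ ‖z‖ := by
      rw [h4]
      exact (le_abs_self r).trans (le_max_left _ _)
    have h6 : ‖x‖ ≤ ‖z‖ := by
      rw [h4]
      exact le_max_right _ _
    linarith
  have h7 : (‖z‖ ^ m)⁻¹ ≤ 2 ^ m * ((r + ‖x‖) ^ m)⁻¹ := by
    have h8 : (r + ‖x‖) ^ m ≤ 2 ^ m * ‖z‖ ^ m := by
      rw [← mul_pow]
      exact pow_le_pow_left₀ (by positivity) h3 m
    rw [← div_eq_mul_inv, le_div_iff₀ (by positivity), inv_mul_le_iff₀ (by positivity)]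
    linarith
  rw [h1, abs_mul, abs_of_pos (by positivity : 0 < (‖z‖ ^ m)⁻¹)]
  calc (‖z‖ ^ m)⁻¹ * |F w| ≤ (2 ^ m * ((r + ‖x‖) ^ m)⁻¹) * (|C| + 1) :=
        mul_le_mul h7 h2 (abs_nonneg _) (by positivity)
    _ = _ := by ring

lemma far_bound {F : E → ℝ} (hF : ContinuousOn F U) (hz : ∀ z : E, 1 / 2 < ‖z.2‖ → F z = 0) :
    ∃ M : ℝ, 0 < M ∧ ∀ r x, 0 < r → r ≤ 1 → 1 / 4 ≤ ‖x‖ → |F (r, x)| ≤ M := by
  set K : Set E := Icc (0 : ℝ) 1 ×ˢ (closedBall (0 : V) 1 \ ball (0 : V) (1 / 4)) with hK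
  have hKc : IsCompact K := isCompact_Icc.prod ((isCompact_closedBall 0 1).diff isOpen_ball)
  have hKU : K ⊆ U := by
    intro z hz h0
    have h1 := hz.2.2
    rw [show z = 0 from h0] at h1
    apply h1
    simp
  obtain ⟨C, hC⟩ := hKc.exists_bound_of_continuousOn (hF.mono hKU)
  refine ⟨|C| + 1, by positivity, ?_⟩
  intro r x hr hr1 hx
  rcases le_or_gt ‖x‖ 1 with h | h
  · have h1 : ((r, x) : E) ∈ K := by
      refine ⟨⟨hr.le, hr1⟩, ?_, ?_⟩
      · simpa using h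
      · simpa using hx
    have := hC _ h1
    rw [Real.norm_eq_abs] at this
    linarith [le_abs_self C]
  · rw [hz (r, x) (by show 1 / 2 < ‖x‖; linarith), abs_zero]
    positivity

/-- bound in all of space -/
lemma glue {m : ℕ} {F F0 : E → ℝ} (hF : ContinuousOn F U)
    (hz : ∀ z : E, 1 / 2 < ‖z.2‖ → F z = 0)
    (h0 : ∀ z ∈ U, ‖z.2‖ < 1 / 4 → F z = F0 z) (hF0 : ContinuousOn F0 U) (hm : Hom m F0) :
    ∃ C : ℝ, 0 < C ∧ ∀ r x, 0 < r → r ≤ 1 → |F (r, x)| ≤ C * ((r + ‖x‖) ^ m)⁻¹ := by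
  obtain ⟨C, hC, h1⟩ := hom_bound hm hF0
  obtain ⟨M, hM, h2⟩ := far_bound hF hz
  refine ⟨C + M * 2 ^ m, by positivity, ?_⟩
  intro r x hr hr1
  have hp : 0 < r + ‖x‖ := by positivity
  rcases lt_or_ge ‖x‖ (1 / 4) with h | h
  · rw [h0 _ (mem_U hr x) h]
    refine (h1 r x hr).trans ?_
    refine mul_le_mul_of_nonneg_right ?_ (by positivity)
    have : 0 ≤ M * 2 ^ m := by positivity
    linarith
  · rcases le_or_gt ‖x‖ 1 with h' | h'
    · refine (h2 r x hr hr1 h).trans ?_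
      have h3 : (1 : ℝ) ≤ 2 ^ m * ((r + ‖x‖) ^ m)⁻¹ := by
        rw [← div_eq_mul_inv, le_div_iff₀ (by positivity), one_mul]
        exact pow_le_pow_left₀ hp.le (by linarith) m
      have h4 : 0 ≤ C * ((r + ‖x‖) ^ m)⁻¹ := by positivity
      nlinarith
    · rw [hz (r, x) (by show 1 / 2 < ‖x‖; linarith), abs_zero]
      positivity

/-! ### The kernels -/

/-- `(r² + |x|²)^(-k/2)` -/
noncomputable def PP (k : ℕ) (z : E) : ℝ := (√(QQ z.1 z.2) ^ k)⁻¹

lemma QQ_pos {z : E} (hz : z ∈ U) : 0 < QQ z.1 z.2 := by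
  unfold QQ
  by_contra hcon
  apply hz
  have h1 : 0 ≤ z.1 ^ 2 := sq_nonneg _
  have h2 : ∀ i, 0 ≤ z.2 i ^ 2 := fun i => sq_nonneg _
  have h3 : 0 ≤ ∑ i, z.2 i ^ 2 := Finset.sum_nonneg fun i _ => h2 i
  have h4 : z.1 ^ 2 = 0 := by linarith
  have h5 : ∑ i, z.2 i ^ 2 = 0 := by linarith
  rw [Finset.sum_eq_zero_iff_of_nonneg fun i _ => h2 i] at h5
  show z = 0
  refine Prod.ext ?_ (funext fun i => ?_)
  · exact pow_eq_zero_iff two_ne_zero |>.1 h4
  · exact pow_eq_zero_iff two_ne_zero |>.1 (h5 i (Finset.mem_univ i))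

lemma sq_pos {z : E} (hz : z ∈ U) : 0 < √(QQ z.1 z.2) := Real.sqrt_pos.2 (QQ_pos hz)

lemma QQ_smooth : ContDiff ℝ ∞ (fun z : E => QQ z.1 z.2) := by
  unfold QQ
  fun_prop

lemma PP_smooth (k : ℕ) : ContDiffOn ℝ ∞ (PP k) U := by
  unfold PP
  refine ContDiffOn.inv ?_ fun z hz => (pow_pos (sq_pos hz) k).ne'
  refine ContDiffOn.pow ?_ k
  exact ContDiffOn.sqrt QQ_smooth.contDiffOn fun z hz => (QQ_pos hz).ne'

lemma PP_hom (k : ℕ) : Hom k (PP k) := by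
  intro l hl z _
  unfold PP
  have h1 : QQ (l • z).1 (l • z).2 = l ^ 2 * QQ z.1 z.2 := by
    unfold QQ
    simp only [Prod.smul_fst, Prod.smul_snd, Pi.smul_apply, smul_eq_mul, mul_pow, mul_add,
      Finset.mul_sum]
  rw [h1, Real.sqrt_mul (sq_nonneg l), Real.sqrt_sq hl.le, mul_pow, mul_inv]

/-- the sum of the second derivatives in space -/
noncomputable def LX (F : E → ℝ) (z : E) : ℝ := ∑ j, Dx j (Dx j F) z

lemma LX_smooth {F : E → ℝ} (hF : ContDiffOn ℝ ∞ F U) : ContDiffOn ℝ ∞ (LX F) U := by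
  unfold LX
  exact ContDiffOn.sum fun j _ => Dx_smooth (Dx_smooth hF j) j

lemma LX_congr {F1 F2 : E → ℝ} {W : Set E} (hW : IsOpen W) (h : EqOn F1 F2 W) :
    EqOn (LX F1) (LX F2) W := by
  intro z hz
  unfold LX
  exact Finset.sum_congr rfl fun j _ => Dx_congr hW (Dx_congr hW h j) j hz

lemma LX_hom {m : ℕ} {F : E → ℝ} (h : Hom m F) (hF : ContDiffOn ℝ ∞ F U) : Hom (m + 2) (LX F) := by
  intro l hl z hz
  unfold LX
  rw [Finset.mul_sum]
  exact Finset.sum_congr rfl fun j _ => Dx_hom (Dx_hom h hF j) (Dx_smooth hF j) j l hl z hz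

lemma lap_slice {F : E → ℝ} (hF : ContDiffOn ℝ ∞ F U) {r : ℝ} (hr : 0 < r) :
    lap (fun y => F (r, y)) = fun y => LX F (r, y) := by
  ext y
  unfold lap LX
  refine Finset.sum_congr rfl fun j _ => ?_
  rw [pd_slice hF j hr, pd_slice (Dx_smooth hF j) j hr]

/-- the cut-off kernel as a function of `(r, x)` -/
noncomputable def GG (z : E) : ℝ := cut z.2 * PP 1 z

lemma GG_smooth : ContDiffOn ℝ ∞ GG U := by
  unfold GG
  exact (cut.contDiff.comp contDiff_snd).contDiffOn.mul (PP_smooth 1)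

lemma gg_eq (r : ℝ) : gg r = fun y => GG (r, y) := by
  ext y
  simp [gg, GG, PP]

/-- where the cut-off is `1` -/
def W : Set E := {z | z ∈ U ∧ ‖z.2‖ < 1 / 4}

lemma isOpen_W : IsOpen W :=
  isOpen_U.inter (isOpen_lt (continuous_snd.norm) continuous_const)

/-- where the cut-off is `0` -/
def W' : Set E := {z | 1 / 2 < ‖z.2‖}

lemma isOpen_W' : IsOpen W' := isOpen_lt continuous_const (continuous_snd.norm)

lemma cut_one {x : V} (hx : ‖x‖ < 1 / 4) : cut x = 1 := by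
  apply cut.one_of_mem_closedBall
  rw [mem_closedBall_zero_iff]
  exact hx.le

lemma cut_zero {x : V} (hx : 1 / 2 ≤ ‖x‖) : cut x = 0 := by
  apply cut.zero_of_le_dist
  rw [dist_zero_right]
  exact hx

lemma GG_W : EqOn GG (PP 1) W := fun z hz => by
  unfold GG
  rw [cut_one hz.2, one_mul]

lemma GG_W' : EqOn GG (fun _ => 0) W' := fun z hz => by
  unfold GG
  rw [cut_zero (le_of_lt hz), zero_mul]

lemma Dx_zero (i : Fin 3) : Dx i (fun _ => (0 : ℝ)) = fun _ => 0 := by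
  ext z
  simp [Dx]

lemma LX_zero : LX (fun _ => (0 : ℝ)) = fun _ => 0 := by
  ext z
  simp [LX, Dx_zero]

/-! ### The Laplacian of the kernel -/

lemma fderiv_QQ (r : ℝ) (x : V) :
    HasFDerivAt (QQ r) (∑ j, (2 * x j) • (ContinuousLinearMap.proj j : V →L[ℝ] ℝ)) x := by
  unfold QQ
  have h1 : ∀ j : Fin 3, HasFDerivAt (fun x : V => x j ^ 2)
      ((2 * x j) • (ContinuousLinearMap.proj j : V →L[ℝ] ℝ)) x := by
    intro j
    have h2 : HasFDerivAt (fun x : V => x j) (ContinuousLinearMap.proj j : V →L[ℝ] ℝ) x :=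
      (ContinuousLinearMap.proj j : V →L[ℝ] ℝ).hasFDerivAt
    have h3 := h2.pow 2
    refine h3.congr_fderiv ?_
    norm_num
  exact (HasFDerivAt.fun_sum fun j _ => h1 j).const_add _

/-- slices of the powers -/
lemma pd_PP {r : ℝ} (hr : 0 < r) (k : ℕ) (i : Fin 3) (x : V) :
    HasFDerivAt (fun y => PP k (r, y)) ((-(k : ℝ) * PP (k + 2) (r, x)) •
      ∑ j, (x j) • (ContinuousLinearMap.proj j : V →L[ℝ] ℝ)) x := by
  have hQ : 0 < QQ r x := QQ_pos (mem_U hr x)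
  have hs : 0 < √(QQ r x) := Real.sqrt_pos.2 hQ
  have h1 := (fderiv_QQ r x).sqrt hQ.ne'
  have h2 : HasDerivAt (fun s : ℝ => (s ^ k)⁻¹) (-(k * √(QQ r x) ^ (k - 1)) / (√(QQ r x) ^ k) ^ 2)
      (√(QQ r x)) := (hasDerivAt_pow k _).inv (pow_ne_zero _ hs.ne')
  have h3 := h2.comp_hasFDerivAt x h1
  refine h3.congr_fderiv ?_
  rcases Nat.eq_zero_or_pos k with rfl | hk
  · simp
  obtain ⟨n, rfl⟩ : ∃ n, k = n + 1 := ⟨k - 1, by omega⟩
  simp only [Nat.add_sub_cancel, PP]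
  rw [Finset.smul_sum, Finset.smul_sum, Finset.smul_sum]
  refine Finset.sum_congr rfl fun j _ => ?_
  simp only [smul_smul]
  congr 1
  field_simp
  ring

lemma pd_PP' {r : ℝ} (hr : 0 < r) (k : ℕ) (i : Fin 3) :
    pd i (fun y => PP k (r, y)) = fun x => -(k : ℝ) * x i * PP (k + 2) (r, x) := by
  ext x
  unfold pd
  rw [(pd_PP hr k i x).fderiv]
  simp [Pi.single_apply]
  ring

lemma lap_PP {r : ℝ} (hr : 0 < r) :
    lap (fun y => PP 1 (r, y)) = fun x => r ^ 2 * (-3 * PP 5 (r, x)) := by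
  ext x
  unfold lap
  have h1 : ∀ j : Fin 3, pd j (pd j (fun y => PP 1 (r, y))) x
      = -PP 3 (r, x) + 3 * x j ^ 2 * PP 5 (r, x) := by
    intro j
    rw [pd_PP' hr 1 j]
    unfold pd
    have h2 : HasFDerivAt (fun x : V => x j) (ContinuousLinearMap.proj j : V →L[ℝ] ℝ) x :=
      (ContinuousLinearMap.proj j : V →L[ℝ] ℝ).hasFDerivAt
    have h3 := (h2.const_mul (-((1 : ℕ) : ℝ))).mul (pd_PP hr 3 j x)
    have h4 : (fun x : V => -((1 : ℕ) : ℝ) * x j * PP (1 + 2) (r, x))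
        = ((fun x : V => -((1 : ℕ) : ℝ) * x j) * fun y => PP 3 (r, y)) := by
      ext y
      simp
    rw [h4, h3.fderiv]
    simp [Pi.single_apply]
    ring
  simp only [h1]
  have hU := mem_U hr x
  have hs := sq_pos hU
  have hQ := QQ_pos hU
  have h5 : PP 3 (r, x) = QQ r x * PP 5 (r, x) := by
    unfold PP
    have h6 : √(QQ r x) ^ 2 = QQ r x := Real.sq_sqrt hQ.le
    simp only at hs ⊢
    conv_rhs => rw [← h6]
    field_simp
    rw [h6]
  rw [h5]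
  unfold QQ
  simp only [Fin.sum_univ_three]
  ring

/-! ### Assembly -/

lemma LX_PP : EqOn (LX (PP 1)) (fun z => z.1 ^ 2 * (-3 * PP 5 z)) {z | 0 < z.1} := by
  rintro ⟨r, x⟩ hr
  have hr' : 0 < r := hr
  have h1 := congrFun (lap_slice (PP_smooth 1) hr') x
  have h2 := congrFun (lap_PP hr') x
  show LX (PP 1) (r, x) = r ^ 2 * (-3 * PP 5 (r, x))
  rw [← h1, h2]

lemma lapgg {r : ℝ} (hr : 0 < r) : lap (gg r) = fun y => LX GG (r, y) := by
  rw [gg_eq, lap_slice GG_smooth hr]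

/-- the far part of a bound for one index is a bound for all -/
lemma unif {ι : Type} [Fintype ι] {P : ι → ℝ → Prop} (hP : ∀ i a b, a ≤ b → P i a → P i b)
    (h : ∀ i, ∃ C : ℝ, 0 < C ∧ P i C) : ∃ C : ℝ, 0 < C ∧ ∀ i, P i C := by
  choose C hC hPC using h
  refine ⟨1 + ∑ i, C i, ?_, fun i => hP i (C i) _ ?_ (hPC i)⟩
  · have : 0 ≤ ∑ i, C i := Finset.sum_nonneg fun i _ => (hC i).le
    linarith
  · have : C i ≤ ∑ i, C i := Finset.single_le_sum (fun j _ => (hC j).le) (Finset.mem_univ i)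
    linarith

/-- `Φ`, with `lap ψ = r² Φ` -/
noncomputable def Phi (z : E) : ℝ := -3 * PP 5 z

lemma Phi_smooth : ContDiffOn ℝ ∞ Phi U := contDiffOn_const.mul (PP_smooth 5)

lemma Phi_hom : Hom 5 Phi := by
  intro l hl z hz
  unfold Phi
  rw [PP_hom 5 l hl z hz]
  ring

lemma near_lap {r : ℝ} (hr : 0 < r) {x : V} (hx : ‖x‖ < 1 / 4) :
    lap (gg r) =ᶠ[𝓝 x] fun y => r ^ 2 * Phi (r, y) := by
  have h1 : {y : V | ‖y‖ < 1 / 4} ∈ 𝓝 x := (isOpen_lt continuous_norm continuous_const).mem_nhds hx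
  filter_upwards [h1] with y hy
  rw [lapgg hr]
  have h2 : LX GG (r, y) = LX (PP 1) (r, y) := LX_congr isOpen_W GG_W ⟨mem_U hr y, hy⟩
  show LX GG (r, y) = r ^ 2 * Phi (r, y)
  rw [h2, LX_PP (show (0 : ℝ) < ((r, y) : E).1 from hr)]
  rfl

lemma const_pd (c : ℝ) {F : E → ℝ} (hF : ContDiffOn ℝ ∞ F U) {r : ℝ} (hr : 0 < r) (i : Fin 3) :
    pd i (fun y => c * F (r, y)) = fun y => c * Dx i F (r, y) := by
  have h1 := pd_slice (F := fun z => c * F z) (contDiffOn_const.mul hF) i hr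
  rw [h1]
  ext y
  unfold Dx
  have h2 : HasFDerivAt (fun z => c * F z) (c • fderiv ℝ F (r, y)) (r, y) :=
    (diffAt hF (mem_U hr y)).hasFDerivAt.const_mul c
  rw [h2.fderiv]
  simp

theorem t_KER : S_KER := by
  -- the pieces
  have hD2 : ∃ C : ℝ, 0 < C ∧ ∀ q : Fin 3 × Fin 3, ∀ r x, 0 < r → r ≤ 1 →
      |Dx q.1 (Dx q.2 GG) (r, x)| ≤ C * ((r + ‖x‖) ^ 3)⁻¹ := by
    refine unif (P := fun (q : Fin 3 × Fin 3) C => ∀ r x, 0 < r → r ≤ 1 →
      |Dx q.1 (Dx q.2 GG) (r, x)| ≤ C * ((r + ‖x‖) ^ 3)⁻¹) ?_ ?_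
    · intro q a b hab h r x hr hr1
      refine (h r x hr hr1).trans (mul_le_mul_of_nonneg_right hab ?_)
      positivity
    · rintro ⟨i, j⟩
      refine glue (F0 := Dx i (Dx j (PP 1))) (Dx_smooth (Dx_smooth GG_smooth j) i).continuousOn
        ?_ ?_ (Dx_smooth (Dx_smooth (PP_smooth 1) j) i).continuousOn
        (Dx_hom (Dx_hom (PP_hom 1) (PP_smooth 1) j) (Dx_smooth (PP_smooth 1) j) i)
      · intro z hz
        have := Dx_congr isOpen_W' (Dx_congr isOpen_W' GG_W' j) i hz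
        rw [this]
        simp [Dx_zero]
      · intro z hz hz'
        exact Dx_congr isOpen_W (Dx_congr isOpen_W GG_W j) i ⟨hz, hz'⟩
  have hD3 : ∃ C : ℝ, 0 < C ∧ ∀ q : Fin 3 × Fin 3 × Fin 3, ∀ r x, 0 < r → r ≤ 1 →
      |Dx q.1 (Dx q.2.1 (Dx q.2.2 GG)) (r, x)| ≤ C * ((r + ‖x‖) ^ 4)⁻¹ := by
    refine unif (P := fun (q : Fin 3 × Fin 3 × Fin 3) C => ∀ r x, 0 < r → r ≤ 1 →
      |Dx q.1 (Dx q.2.1 (Dx q.2.2 GG)) (r, x)| ≤ C * ((r + ‖x‖) ^ 4)⁻¹) ?_ ?_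
    · intro q a b hab h r x hr hr1
      refine (h r x hr hr1).trans (mul_le_mul_of_nonneg_right hab ?_)
      positivity
    · rintro ⟨i, j, l⟩
      refine glue (F0 := Dx i (Dx j (Dx l (PP 1))))
        (Dx_smooth (Dx_smooth (Dx_smooth GG_smooth l) j) i).continuousOn
        ?_ ?_ (Dx_smooth (Dx_smooth (Dx_smooth (PP_smooth 1) l) j) i).continuousOn
        (Dx_hom (Dx_hom (Dx_hom (PP_hom 1) (PP_smooth 1) l) (Dx_smooth (PP_smooth 1) l) j)
          (Dx_smooth (Dx_smooth (PP_smooth 1) l) j) i)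
      · intro z hz
        have := Dx_congr isOpen_W' (Dx_congr isOpen_W' (Dx_congr isOpen_W' GG_W' l) j) i hz
        rw [this]
        simp [Dx_zero]
      · intro z hz hz'
        exact Dx_congr isOpen_W (Dx_congr isOpen_W (Dx_congr isOpen_W GG_W l) j) i ⟨hz, hz'⟩
  have hE : ∃ C : ℝ, 0 < C ∧ ∀ r x, 0 < r → r ≤ 1 → 1 / 4 ≤ ‖x‖ →
      |LX GG (r, x) + cut x * (3 * r ^ 2 * PP 5 (r, x))| ≤ C := by
    refine far_bound (F := fun z => LX GG z + cut z.2 * (3 * z.1 ^ 2 * PP 5 z)) ?_ ?_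
    · refine (LX_smooth GG_smooth).continuousOn.add ?_
      refine (cut.continuous.comp continuous_snd).continuousOn.mul ?_
      refine ContinuousOn.mul ?_ (PP_smooth 5).continuousOn
      fun_prop
    · intro z hz
      have h1 := LX_congr isOpen_W' GG_W' hz
      show LX GG z + cut z.2 * (3 * z.1 ^ 2 * PP 5 z) = 0
      rw [h1, LX_zero, cut_zero hz.le]
      simp
  have hF1 : ∃ C : ℝ, 0 < C ∧ ∀ i : Fin 3, ∀ r x, 0 < r → r ≤ 1 → 1 / 4 ≤ ‖x‖ →
      |Dx i (LX GG) (r, x)| ≤ C := by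
    refine unif (P := fun i C => ∀ r x, 0 < r → r ≤ 1 → 1 / 4 ≤ ‖x‖ →
      |Dx i (LX GG) (r, x)| ≤ C) (fun i a b hab h r x hr hr1 hx => (h r x hr hr1 hx).trans hab) ?_
    intro i
    refine far_bound (Dx_smooth (LX_smooth GG_smooth) i).continuousOn ?_
    intro z hz
    rw [Dx_congr isOpen_W' (LX_congr isOpen_W' GG_W') i hz]
    simp [LX_zero, Dx_zero]
  have hF2 : ∃ C : ℝ, 0 < C ∧ ∀ r x, 0 < r → r ≤ 1 → 1 / 4 ≤ ‖x‖ →
      |LX (LX GG) (r, x)| ≤ C := by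
    refine far_bound (LX_smooth (LX_smooth GG_smooth)).continuousOn ?_
    intro z hz
    rw [LX_congr isOpen_W' (LX_congr isOpen_W' GG_W') hz]
    simp [LX_zero]
  have hN1 : ∃ C : ℝ, 0 < C ∧ ∀ i : Fin 3, ∀ r x, 0 < r →
      |Dx i Phi (r, x)| ≤ C * ((r + ‖x‖) ^ 6)⁻¹ := by
    refine unif (P := fun i C => ∀ r x, 0 < r →
      |Dx i Phi (r, x)| ≤ C * ((r + ‖x‖) ^ 6)⁻¹) ?_ ?_
    · intro q a b hab h r x hr
      refine (h r x hr).trans (mul_le_mul_of_nonneg_right hab ?_)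
      positivity
    · intro i
      exact hom_bound (Dx_hom Phi_hom Phi_smooth i) (Dx_smooth Phi_smooth i).continuousOn
  have hN2 : ∃ C : ℝ, 0 < C ∧ ∀ r x, 0 < r →
      |LX Phi (r, x)| ≤ C * ((r + ‖x‖) ^ 7)⁻¹ :=
    hom_bound (LX_hom Phi_hom Phi_smooth) (LX_smooth Phi_smooth).continuousOn
  obtain ⟨C1, hC1, h1⟩ := hD2
  obtain ⟨C2, hC2, h2⟩ := hD3
  obtain ⟨C3, hC3, h3⟩ := hE
  obtain ⟨C4, hC4, h4⟩ := hF1
  obtain ⟨C5, hC5, h5⟩ := hF2
  obtain ⟨C6, hC6, h6⟩ := hN1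
  obtain ⟨C7, hC7, h7⟩ := hN2
  refine ⟨C1 + C2 + C3 + C4 + C5 + C6 + C7, by positivity, ?_⟩
  intro r hr hr1
  have hpd1 : ∀ j, pd j (gg r) = fun y => Dx j GG (r, y) := fun j => by
    rw [gg_eq, pd_slice GG_smooth j hr]
  have hpd2 : ∀ i j, pd i (pd j (gg r)) = fun y => Dx i (Dx j GG) (r, y) := fun i j => by
    rw [hpd1, pd_slice (Dx_smooth GG_smooth j) i hr]
  have hpd3 : ∀ i j l, pd i (pd j (pd l (gg r))) = fun y => Dx i (Dx j (Dx l GG)) (r, y) :=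
    fun i j l => by
      rw [hpd2, pd_slice (Dx_smooth (Dx_smooth GG_smooth l) j) i hr]
  have hpl : ∀ i, pd i (lap (gg r)) = fun y => Dx i (LX GG) (r, y) := fun i => by
    rw [lapgg hr, pd_slice (LX_smooth GG_smooth) i hr]
  have hll : lap (lap (gg r)) = fun y => LX (LX GG) (r, y) := by
    rw [lapgg hr, lap_slice (LX_smooth GG_smooth) hr]
  have heta : ∀ x, eta r x = cut x * (3 * r ^ 2 * PP 5 (r, x)) := fun x => by
    simp [eta, PP]
  have hnear : ∀ x : V, ‖x‖ < 1 / 4 → lap (gg r) x = -eta r x := by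
    intro x hx
    rw [(near_lap hr hx).eq_of_nhds, heta, cut_one hx]
    unfold Phi
    ring
  have hn1 : ∀ i, ∀ x : V, ‖x‖ < 1 / 4 → |pd i (lap (gg r)) x| ≤ C6 * (r ^ 2 * ((r + ‖x‖) ^ 6)⁻¹) := by
    intro i x hx
    have e1 : pd i (lap (gg r)) x = r ^ 2 * Dx i Phi (r, x) := by
      have e2 := congrFun (const_pd (r ^ 2) Phi_smooth hr i) x
      rw [← e2]
      unfold pd
      rw [(near_lap hr hx).fderiv_eq]
    rw [e1, abs_mul, abs_of_nonneg (sq_nonneg r)]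
    have := mul_le_mul_of_nonneg_left (h6 i r x hr) (sq_nonneg r)
    linarith
  have hn2 : ∀ x : V, ‖x‖ < 1 / 4 → |lap (lap (gg r)) x| ≤ C7 * (r ^ 2 * ((r + ‖x‖) ^ 7)⁻¹) := by
    intro x hx
    have e1 : lap (lap (gg r)) x = r ^ 2 * LX Phi (r, x) := by
      have e3 : ∀ j : Fin 3, pd j (pd j (lap (gg r))) x = r ^ 2 * Dx j (Dx j Phi) (r, x) := by
        intro j
        have e4 : pd j (lap (gg r)) =ᶠ[𝓝 x] fun y => r ^ 2 * Dx j Phi (r, y) := by
          have e5 : {y : V | ‖y‖ < 1 / 4} ∈ 𝓝 x :=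
            (isOpen_lt continuous_norm continuous_const).mem_nhds hx
          filter_upwards [e5] with y hy
          have e2 := congrFun (const_pd (r ^ 2) Phi_smooth hr j) y
          rw [← e2]
          unfold pd
          rw [(near_lap hr hy).fderiv_eq]
        have e6 := congrFun (const_pd (r ^ 2) (Dx_smooth Phi_smooth j) hr j) x
        rw [← e6]
        unfold pd at e4 ⊢
        rw [e4.fderiv_eq]
      show ∑ j, pd j (pd j (lap (gg r))) x = r ^ 2 * ∑ j, Dx j (Dx j Phi) (r, x)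
      rw [Finset.mul_sum]
      exact Finset.sum_congr rfl fun j _ => e3 j
    rw [e1, abs_mul, abs_of_nonneg (sq_nonneg r)]
    have := mul_le_mul_of_nonneg_left (h7 r x hr) (sq_nonneg r)
    linarith
  refine ⟨?_, fun x => ?_⟩
  · rw [gg_eq]
    have h8 : ContDiffOn ℝ ∞ (fun y : V => GG (r, y)) univ :=
      GG_smooth.comp (contDiff_prodMk_right r).contDiffOn fun y _ => mem_U hr y
    exact contDiffOn_univ.1 h8
  have hp : 0 < r + ‖x‖ := by positivity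
  have w3 : 0 ≤ ((r + ‖x‖) ^ 3)⁻¹ := by positivity
  have w4 : 0 ≤ ((r + ‖x‖) ^ 4)⁻¹ := by positivity
  have w6 : 0 ≤ r ^ 2 * ((r + ‖x‖) ^ 6)⁻¹ := by positivity
  have w7 : 0 ≤ r ^ 2 * ((r + ‖x‖) ^ 7)⁻¹ := by positivity
  refine ⟨?_, hnear x, ?_, ?_, ?_, ?_, ?_, ?_, ?_⟩
  · intro hx
    unfold gg
    rw [cut_zero hx, zero_mul]
  · rcases lt_or_ge ‖x‖ (1 / 4) with hx | hx
    · rw [hnear x hx, neg_add_cancel, abs_zero]
      positivity
    · rw [lapgg hr, heta]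
      refine (h3 r x hr hr1 hx).trans ?_
      linarith
  · intro i j
    rw [hpd2, div_eq_mul_inv]
    refine (h1 (i, j) r x hr hr1).trans (mul_le_mul_of_nonneg_right ?_ w3)
    linarith
  · intro i j l
    rw [hpd3, div_eq_mul_inv]
    refine (h2 (i, j, l) r x hr hr1).trans (mul_le_mul_of_nonneg_right ?_ w4)
    linarith
  · intro i hx
    rw [mul_div_assoc, div_eq_mul_inv]
    refine (hn1 i x hx).trans (mul_le_mul_of_nonneg_right ?_ w6)
    linarith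
  · intro i
    rw [div_eq_mul_inv]
    rcases lt_or_ge ‖x‖ (1 / 4) with hx | hx
    · refine (hn1 i x hx).trans ?_
      refine mul_le_mul (by linarith) (by linarith) w6 (by positivity)
    · rw [hpl]
      refine (h4 i r x hr hr1 hx).trans ?_
      have : (C1 + C2 + C3 + C4 + C5 + C6 + C7) * 1 ≤
          (C1 + C2 + C3 + C4 + C5 + C6 + C7) * (r ^ 2 * ((r + ‖x‖) ^ 6)⁻¹ + 1) :=
        mul_le_mul_of_nonneg_left (by linarith) (by positivity)
      linarith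
  · intro hx
    rw [mul_div_assoc, div_eq_mul_inv]
    refine (hn2 x hx).trans (mul_le_mul_of_nonneg_right ?_ w7)
    linarith
  · rw [div_eq_mul_inv]
    rcases lt_or_ge ‖x‖ (1 / 4) with hx | hx
    · refine (hn2 x hx).trans ?_
      refine mul_le_mul (by linarith) (by linarith) w7 (by positivity)
    · rw [hll]
      refine (h5 r x hr hr1 hx).trans ?_
      have : (C1 + C2 + C3 + C4 + C5 + C6 + C7) * 1 ≤
          (C1 + C2 + C3 + C4 + C5 + C6 + C7) * (r ^ 2 * ((r + ‖x‖) ^ 7)⁻¹ + 1) :=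
        mul_le_mul_of_nonneg_left (by linarith) (by positivity)
      linarith

end Pool.Agent.Y494.NS.Ker
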