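import Pool.Agent.Y8.Stm2
import Pool.Agent.Y494.NS.KER

/-!
Task KER2 of helper8: bounds for the derivatives of the cut-off kernel, second version.
-/

open MeasureTheory Set Metric Filter Topology
open scoped ContDiff

namespace Pool.Agent.Y494.NS.Ker

open H459R3.NS Pool.Agent.Y8

/-- `eta = r² H` -/
noncomputable def HK (z : E) : ℝ := cut z.2 * (3 * PP 5 z)

lemma HK_smooth : ContDiffOn ℝ ∞ HK U := by
  unfold HK
  exact (cut.contDiff.comp contDiff_snd).contDiffOn.mul (contDiffOn_const.mul (PP_smooth 5))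

lemma eta_eq (r : ℝ) : eta r = fun y => r ^ 2 * HK (r, y) := by
  ext y
  simp [eta, HK, PP]
  ring

lemma HK_W : EqOn HK (fun z => 3 * PP 5 z) W := fun z hz => by
  unfold HK
  rw [cut_one hz.2, one_mul]

lemma HK_W' : EqOn HK (fun _ => 0) W' := fun z hz => by
  unfold HK
  rw [cut_zero (le_of_lt hz), zero_mul]

lemma P5_hom : Hom 5 (fun z => 3 * PP 5 z) := by
  intro l hl z hz
  show 3 * PP 5 (l • z) = (l ^ 5)⁻¹ * (3 * PP 5 z)
  rw [PP_hom 5 l hl z hz]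
  ring

lemma P5_smooth : ContDiffOn ℝ ∞ (fun z : E => 3 * PP 5 z) U := contDiffOn_const.mul (PP_smooth 5)

/-- `lap gg + eta` -/
noncomputable def FK (z : E) : ℝ := LX GG z + z.1 ^ 2 * HK z

lemma FK_smooth : ContDiffOn ℝ ∞ FK U := by
  unfold FK
  refine (LX_smooth GG_smooth).add (ContDiffOn.mul ?_ HK_smooth)
  exact (contDiff_fst.pow 2).contDiffOn

lemma FK_eq {r : ℝ} (hr : 0 < r) : (fun y => lap (gg r) y + eta r y) = fun y => FK (r, y) := by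
  ext y
  rw [lapgg hr, eta_eq]
  rfl

/-- where the cut-off is `1`, positive scale -/
def Wp : Set E := {z | 0 < z.1 ∧ ‖z.2‖ < 1 / 4}

lemma isOpen_Wp : IsOpen Wp :=
  (isOpen_lt continuous_const continuous_fst).inter
    (isOpen_lt (continuous_snd.norm) continuous_const)

lemma FK_Wp : EqOn FK (fun _ => 0) Wp := by
  rintro ⟨r, x⟩ ⟨hr, hx⟩
  have hr' : 0 < r := hr
  have hU := mem_U hr' x
  unfold FK
  rw [LX_congr isOpen_W GG_W ⟨hU, hx⟩, LX_PP (show (0 : ℝ) < ((r, x) : E).1 from hr'),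
    HK_W ⟨hU, hx⟩]
  ring

lemma FK_W' : EqOn FK (fun _ => 0) W' := by
  intro z hz
  unfold FK
  rw [LX_congr isOpen_W' GG_W' hz, HK_W' hz, LX_zero]
  ring

/-- functions which vanish near the origin and at infinity -/
lemma bdd_of {F : E → ℝ} (hF : ContinuousOn F U) (h1 : EqOn F (fun _ => 0) Wp)
    (h2 : EqOn F (fun _ => 0) W') :
    ∃ M : ℝ, 0 < M ∧ ∀ r x, 0 < r → r ≤ 1 → |F (r, x)| ≤ M := by
  obtain ⟨M, hM, h⟩ := far_bound hF (fun z hz => h2 hz)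
  refine ⟨M, hM, fun r x hr hr1 => ?_⟩
  rcases lt_or_ge ‖x‖ (1 / 4) with hx | hx
  · rw [h1 (show ((r, x) : E) ∈ Wp from ⟨hr, hx⟩), abs_zero]
    exact hM.le
  · exact h r x hr hr1 hx

lemma Dx_congr0 {F : E → ℝ} {W : Set E} (hW : IsOpen W) (h : EqOn F (fun _ => 0) W) (i : Fin 3) :
    EqOn (Dx i F) (fun _ => 0) W := by
  intro z hz
  rw [Dx_congr hW h i hz, Dx_zero]

lemma LX_congr0 {F : E → ℝ} {W : Set E} (hW : IsOpen W) (h : EqOn F (fun _ => 0) W) :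
    EqOn (LX F) (fun _ => 0) W := by
  intro z hz
  rw [LX_congr hW h hz, LX_zero]

theorem t_KER2 : S_KER2 := by
  obtain ⟨C0, hC0, h0⟩ := t_KER
  have hb5 := glue (F0 := fun z => 3 * PP 5 z) HK_smooth.continuousOn (fun z hz => HK_W' hz)
    (fun z hz hz' => HK_W ⟨hz, hz'⟩) P5_smooth.continuousOn P5_hom
  have hb6 : ∃ C : ℝ, 0 < C ∧ ∀ i : Fin 3, ∀ r x, 0 < r → r ≤ 1 →
      |Dx i HK (r, x)| ≤ C * ((r + ‖x‖) ^ 6)⁻¹ := by
    refine unif (P := fun (i : Fin 3) C => ∀ r x, 0 < r → r ≤ 1 →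
      |Dx i HK (r, x)| ≤ C * ((r + ‖x‖) ^ 6)⁻¹) ?_ ?_
    · intro q a b hab h r x hr hr1
      refine (h r x hr hr1).trans (mul_le_mul_of_nonneg_right hab ?_)
      positivity
    · intro i
      exact glue (F0 := Dx i (fun z => 3 * PP 5 z)) (Dx_smooth HK_smooth i).continuousOn
        (fun z hz => Dx_congr0 isOpen_W' HK_W' i hz)
        (fun z hz hz' => Dx_congr isOpen_W HK_W i ⟨hz, hz'⟩)
        (Dx_smooth P5_smooth i).continuousOn (Dx_hom P5_hom P5_smooth i)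
  have hb7 := glue (F0 := LX (fun z => 3 * PP 5 z)) (LX_smooth HK_smooth).continuousOn
    (fun z hz => LX_congr0 isOpen_W' HK_W' hz)
    (fun z hz hz' => LX_congr isOpen_W HK_W ⟨hz, hz'⟩)
    (LX_smooth P5_smooth).continuousOn (LX_hom P5_hom P5_smooth)
  have hF0 := bdd_of FK_smooth.continuousOn FK_Wp FK_W'
  have hF1 : ∃ C : ℝ, 0 < C ∧ ∀ i : Fin 3, ∀ r x, 0 < r → r ≤ 1 → |Dx i FK (r, x)| ≤ C := by
    refine unif (P := fun (i : Fin 3) C => ∀ r x, 0 < r → r ≤ 1 → |Dx i FK (r, x)| ≤ C)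
      (fun i a b hab h r x hr hr1 => (h r x hr hr1).trans hab) fun i => ?_
    exact bdd_of (Dx_smooth FK_smooth i).continuousOn (Dx_congr0 isOpen_Wp FK_Wp i)
      (Dx_congr0 isOpen_W' FK_W' i)
  have hF2 := bdd_of (LX_smooth FK_smooth).continuousOn (LX_congr0 isOpen_Wp FK_Wp)
    (LX_congr0 isOpen_W' FK_W')
  obtain ⟨C1, hC1, h1⟩ := hb5
  obtain ⟨C2, hC2, h2⟩ := hb6
  obtain ⟨C3, hC3, h3⟩ := hb7
  obtain ⟨C4, hC4, h4⟩ := hF0
  obtain ⟨C5, hC5, h5⟩ := hF1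
  obtain ⟨C6, hC6, h6⟩ := hF2
  refine ⟨C0 + C1 + C2 + C3 + C4 + C5 + C6, by positivity, ?_⟩
  intro r hr hr1
  obtain ⟨hs, hx⟩ := h0 r hr hr1
  refine ⟨hs, ?_, ?_, fun x => ?_⟩
  · rw [eta_eq]
    have h8 : ContDiffOn ℝ ∞ (fun y : V => HK (r, y)) univ :=
      HK_smooth.comp (contDiff_prodMk_right r).contDiffOn fun y _ => mem_U hr y
    exact contDiff_const.mul (contDiffOn_univ.1 h8)
  · intro x
    unfold eta
    exact mul_nonneg cut.nonneg (by positivity)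
  have hp : 0 < r + ‖x‖ := by positivity
  have w3 : 0 ≤ ((r + ‖x‖) ^ 3)⁻¹ := by positivity
  have w4 : 0 ≤ ((r + ‖x‖) ^ 4)⁻¹ := by positivity
  have w5 : 0 ≤ r ^ 2 * ((r + ‖x‖) ^ 5)⁻¹ := by positivity
  have w6 : 0 ≤ r ^ 2 * ((r + ‖x‖) ^ 6)⁻¹ := by positivity
  have w7 : 0 ≤ r ^ 2 * ((r + ‖x‖) ^ 7)⁻¹ := by positivity
  obtain ⟨g1, -, -, g2, g3, -⟩ := hx x
  have hsm : ∀ i : Fin 3, pd i (eta r) x = r ^ 2 * Dx i HK (r, x) := by
    intro i
    rw [eta_eq]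
    exact congrFun (const_pd (r ^ 2) HK_smooth hr i) x
  have hsl : lap (eta r) x = r ^ 2 * LX HK (r, x) := by
    rw [eta_eq]
    show ∑ j, pd j (pd j (fun y => r ^ 2 * HK (r, y))) x = r ^ 2 * ∑ j, Dx j (Dx j HK) (r, x)
    rw [Finset.mul_sum]
    refine Finset.sum_congr rfl fun j _ => ?_
    rw [const_pd (r ^ 2) HK_smooth hr j]
    exact congrFun (const_pd (r ^ 2) (Dx_smooth HK_smooth j) hr j) x
  refine ⟨?_, ?_, ?_, ?_, ?_, ?_, ?_, ?_, ?_⟩
  · intro hx'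
    refine ⟨g1 hx', ?_⟩
    unfold eta
    rw [cut_zero hx', zero_mul]
  · rw [mul_div_assoc, div_eq_mul_inv, eta_eq]
    have e1 := mul_le_mul_of_nonneg_left ((le_abs_self _).trans (h1 r x hr hr1)) (sq_nonneg r)
    refine e1.trans ?_
    have e2 : C1 * (r ^ 2 * ((r + ‖x‖) ^ 5)⁻¹) ≤
        (C0 + C1 + C2 + C3 + C4 + C5 + C6) * (r ^ 2 * ((r + ‖x‖) ^ 5)⁻¹) :=
      mul_le_mul_of_nonneg_right (by linarith) w5
    linarith
  · intro i
    rw [mul_div_assoc, div_eq_mul_inv, hsm, abs_mul, abs_of_nonneg (sq_nonneg r)]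
    have e1 := mul_le_mul_of_nonneg_left (h2 i r x hr hr1) (sq_nonneg r)
    refine e1.trans ?_
    have e2 : C2 * (r ^ 2 * ((r + ‖x‖) ^ 6)⁻¹) ≤
        (C0 + C1 + C2 + C3 + C4 + C5 + C6) * (r ^ 2 * ((r + ‖x‖) ^ 6)⁻¹) :=
      mul_le_mul_of_nonneg_right (by linarith) w6
    linarith
  · rw [mul_div_assoc, div_eq_mul_inv, hsl, abs_mul, abs_of_nonneg (sq_nonneg r)]
    have e1 := mul_le_mul_of_nonneg_left (h3 r x hr hr1) (sq_nonneg r)
    refine e1.trans ?_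
    have e2 : C3 * (r ^ 2 * ((r + ‖x‖) ^ 7)⁻¹) ≤
        (C0 + C1 + C2 + C3 + C4 + C5 + C6) * (r ^ 2 * ((r + ‖x‖) ^ 7)⁻¹) :=
      mul_le_mul_of_nonneg_right (by linarith) w7
    linarith
  · have e1 : lap (gg r) x + eta r x = FK (r, x) := congrFun (FK_eq hr) x
    rw [e1]
    refine (h4 r x hr hr1).trans ?_
    linarith
  · intro i
    rw [FK_eq hr, pd_slice FK_smooth i hr]
    refine (h5 i r x hr hr1).trans ?_
    linarith
  · rw [FK_eq hr, lap_slice FK_smooth hr]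
    refine (h6 r x hr hr1).trans ?_
    linarith
  · intro i j
    refine (g2 i j).trans ?_
    rw [div_eq_mul_inv, div_eq_mul_inv]
    exact mul_le_mul_of_nonneg_right (by linarith) w3
  · intro i j l
    refine (g3 i j l).trans ?_
    rw [div_eq_mul_inv, div_eq_mul_inv]
    exact mul_le_mul_of_nonneg_right (by linarith) w4

end Pool.Agent.Y494.NS.Ker
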