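import Pool.Agent.Y8.Stm
import Pool.Agent.W135.MD.FarA

/-!
Task OVER of helper8: bounded overlap of balls around parabolically separated points.
-/

open MeasureTheory Set Metric
open scoped ContDiff

namespace Pool.Agent.Y494.NS

open H459R3.NS W221.NS Pool.Agent.Y8

/-- Half integral points. -/
noncomputable def hc (c : Fin 3 → ℤ) : V := fun i => (c i : ℝ) / 2

lemma ind_int {f : V → ℝ} (hf : Continuous f) (x : V) (ρ : ℝ) :
    Integrable (indicator (ball x ρ) f) := by
  rw [integrable_indicator_iff measurableSet_ball]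
  exact (hf.continuousOn.integrableOn_compact (isCompact_closedBall x ρ)).mono_set
    ball_subset_closedBall

lemma ball3_le {f : V → ℝ} (hf : Continuous f) (hp : Per f) (h0 : ∀ y, 0 ≤ f y) :
    ∫ y in ball (0 : V) 3, f y ≤ 2197 * ∫ y in cube, f y := by
  set I : Finset (Fin 3 → ℤ) := Fintype.piFinset fun _ => Finset.Icc (-6 : ℤ) 6 with hI
  have hcard : I.card = 2197 := by
    rw [hI, Fintype.card_piFinset]
    simp
  have h1 : ∫ y in ball (0 : V) 3, f y
      ≤ ∫ y, ∑ c ∈ I, indicator (ball (hc c) (1 / 2)) f y := by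
    rw [← integral_indicator measurableSet_ball]
    refine integral_mono (ind_int hf _ _) (integrable_finsetSum _ fun c _ => ind_int hf _ _) ?_
    intro y
    show indicator (ball (0 : V) 3) f y ≤ ∑ c ∈ I, indicator (ball (hc c) (1 / 2)) f y
    have hnn : ∀ c ∈ I, 0 ≤ indicator (ball (hc c) (1 / 2)) f y := fun c _ =>
      indicator_nonneg (fun z _ => h0 z) y
    by_cases hy : y ∈ ball (0 : V) 3
    · rw [indicator_of_mem hy]
      rw [mem_ball_zero_iff] at hy
      have hyi : ∀ i, |y i| < 3 := fun i => by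
        have := norm_le_pi_norm y i
        rw [Real.norm_eq_abs] at this
        linarith
      set c : Fin 3 → ℤ := fun i => round (2 * y i) with hcdef
      have hr : ∀ i, |2 * y i - c i| ≤ 1 / 2 := fun i => abs_sub_round _
      have hcI : c ∈ I := by
        rw [hI, Fintype.mem_piFinset]
        intro i
        rw [Finset.mem_Icc]
        have h2 := hr i
        have h3 := hyi i
        rw [abs_le] at h2
        rw [abs_lt] at h3
        constructor
        · have : ((-7 : ℤ) : ℝ) < c i := by push_cast; linarith [h2.2]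
          have := Int.cast_lt.1 this
          omega
        · have : (c i : ℝ) < ((7 : ℤ) : ℝ) := by push_cast; linarith [h2.1]
          have := Int.cast_lt.1 this
          omega
      have hyc : y ∈ ball (hc c) (1 / 2) := by
        rw [mem_ball, dist_eq_norm]
        refine lt_of_le_of_lt ((pi_norm_le_iff_of_nonneg (by norm_num : (0 : ℝ) ≤ 1 / 4)).2
          fun i => ?_) (by norm_num : (1 / 4 : ℝ) < 1 / 2)
        simp only [hc, Pi.sub_apply, Real.norm_eq_abs]
        have h2 := hr i
        rw [abs_le] at h2 ⊢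
        constructor <;> linarith [h2.1, h2.2]
      calc f y = indicator (ball (hc c) (1 / 2)) f y := (indicator_of_mem hyc f).symm
        _ ≤ _ := Finset.single_le_sum hnn hcI
    · rw [indicator_of_notMem hy]
      exact Finset.sum_nonneg hnn
  rw [integral_finsetSum _ fun c _ => ind_int hf _ _] at h1
  refine h1.trans ?_
  have h2 : ∀ c ∈ I, ∫ y, indicator (ball (hc c) (1 / 2)) f y ≤ ∫ y in cube, f y := by
    intro c _
    rw [integral_indicator measurableSet_ball]
    exact Pool.Agent.W135.MD.ball_le_cube hf hp h0 _ le_rfl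
  refine (Finset.sum_le_card_nsmul _ _ _ h2).trans ?_
  rw [hcard, nsmul_eq_mul]
  norm_num

/-- The number of balls which contain a point. -/
lemma count_le {r ρ : ℝ} (hr : 0 < r) (hρ : r ≤ ρ) (T : Finset (ℝ × V))
    (hT : ∀ z ∈ T, ∀ w ∈ T, z ≠ w → r ≤ ‖z.2 - w.2‖) (y : V)
    (hy : ∀ z ∈ T, y ∈ ball z.2 ρ) : (T.card : ℝ) ≤ 27 * (ρ / r) ^ 3 := by
  have hdisj : (T : Set (ℝ × V)).PairwiseDisjoint fun z => ball z.2 (r / 2) := by
    intro z hz w hw hzw
    rw [Function.onFun, Set.disjoint_left]
    intro x hx hx'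
    rw [mem_ball, dist_eq_norm] at hx hx'
    have h1 := hT z hz w hw hzw
    have h2 : z.2 - w.2 = (x - w.2) - (x - z.2) := by abel
    have h3 : ‖z.2 - w.2‖ ≤ ‖x - w.2‖ + ‖x - z.2‖ := by
      rw [h2]
      exact norm_sub_le _ _
    linarith
  have hsub : (⋃ z ∈ T, ball z.2 (r / 2)) ⊆ ball y (ρ + r / 2) := by
    intro x hx
    simp only [mem_iUnion] at hx
    obtain ⟨z, hz, hx⟩ := hx
    have h1 := hy z hz
    rw [mem_ball] at hx h1 ⊢
    have h2 := dist_triangle x z.2 y
    rw [dist_comm z.2 y] at h2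
    linarith
  have h1 : volume (⋃ z ∈ T, ball z.2 (r / 2)) ≤ volume (ball y (ρ + r / 2)) :=
    measure_mono hsub
  rw [measure_biUnion_finset hdisj fun z _ => measurableSet_ball] at h1
  have h2 : ∀ z : ℝ × V, volume (ball z.2 (r / 2)) = ENNReal.ofReal (r ^ 3) := by
    intro z
    rw [Real.volume_pi_ball _ (by positivity)]
    congr 1
    rw [Fintype.card_fin]
    ring
  have hρ0 : 0 < ρ := lt_of_lt_of_le hr hρ
  have h3 : volume (ball y (ρ + r / 2)) ≤ ENNReal.ofReal ((3 * ρ) ^ 3) := by
    rw [Real.volume_pi_ball _ (by positivity)]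
    refine ENNReal.ofReal_le_ofReal ?_
    rw [Fintype.card_fin]
    refine pow_le_pow_left₀ (by positivity) ?_ 3
    linarith
  simp only [h2, Finset.sum_const, nsmul_eq_mul] at h1
  have h4 := h1.trans h3
  rw [← ENNReal.ofReal_natCast, ← ENNReal.ofReal_mul (by positivity),
    ENNReal.ofReal_le_ofReal_iff (by positivity)] at h4
  rw [div_pow, mul_div_assoc', le_div_iff₀ (by positivity)]
  nlinarith

/-- The case of points which are separated in space. -/
lemma over_aux {r ρ : ℝ} (hr : 0 < r) (hρ : r ≤ ρ) (hρ2 : ρ ≤ 2) (T : Finset (ℝ × V))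
    (hT : ∀ z ∈ T, ∀ w ∈ T, z ≠ w → r ≤ ‖z.2 - w.2‖) (hc : ∀ z ∈ T, z.2 ∈ cube) {f : V → ℝ}
    (hf : Continuous f) (hp : Per f) (h0 : ∀ y, 0 ≤ f y) :
    ∑ z ∈ T, ∫ x in ball z.2 ρ, f x ≤ 59319 * (ρ / r) ^ 3 * ∫ x in cube, f x := by
  classical
  have hρ0 : 0 < ρ := lt_of_lt_of_le hr hρ
  have h1 : ∑ z ∈ T, ∫ x in ball z.2 ρ, f x
      = ∫ x, ∑ z ∈ T, indicator (ball z.2 ρ) f x := by
    rw [integral_finsetSum _ fun c _ => ind_int hf _ _]
    refine Finset.sum_congr rfl fun z _ => ?_
    rw [integral_indicator measurableSet_ball]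
  have h2 : ∫ x, ∑ z ∈ T, indicator (ball z.2 ρ) f x
      ≤ ∫ x, 27 * (ρ / r) ^ 3 * indicator (ball (0 : V) 3) f x := by
    refine integral_mono (integrable_finsetSum _ fun c _ => ind_int hf _ _)
      ((ind_int hf _ _).const_mul _) ?_
    intro y
    show ∑ z ∈ T, indicator (ball z.2 ρ) f y ≤ 27 * (ρ / r) ^ 3 * indicator (ball (0 : V) 3) f y
    have h3 : ∑ z ∈ T, indicator (ball z.2 ρ) f y
        = ∑ z ∈ T.filter (fun z => y ∈ ball z.2 ρ), f y := by
      rw [Finset.sum_filter]
      refine Finset.sum_congr rfl fun z _ => ?_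
      rw [indicator_apply]
    rw [h3, Finset.sum_const, nsmul_eq_mul]
    by_cases hy : y ∈ ball (0 : V) 3
    · rw [indicator_of_mem hy]
      refine mul_le_mul_of_nonneg_right ?_ (h0 y)
      refine count_le hr hρ _ ?_ y ?_
      · intro z hz w hw hzw
        exact hT z (Finset.mem_filter.1 hz).1 w (Finset.mem_filter.1 hw).1 hzw
      · intro z hz
        exact (Finset.mem_filter.1 hz).2
    · have h4 : T.filter (fun z => y ∈ ball z.2 ρ) = ∅ := by
        rw [Finset.filter_eq_empty_iff]
        intro z hz hyz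
        apply hy
        rw [mem_ball_zero_iff]
        rw [mem_ball, dist_eq_norm] at hyz
        have h5 : ‖z.2‖ ≤ 1 := by
          rw [pi_norm_le_iff_of_nonneg zero_le_one]
          intro i
          have h6 := hc z hz
          have h7 := h6.1 i
          have h8 := h6.2 i
          simp only [Pi.zero_apply, Pi.one_apply] at h7 h8
          rw [Real.norm_eq_abs, abs_of_nonneg h7]
          exact h8
        have h9 : y = (y - z.2) + z.2 := by abel
        have h10 : ‖y‖ ≤ ‖y - z.2‖ + ‖z.2‖ := by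
          conv_lhs => rw [h9]
          exact norm_add_le _ _
        linarith
      rw [h4, Finset.card_empty, Nat.cast_zero, zero_mul, indicator_of_notMem hy, mul_zero]
  rw [h1]
  refine h2.trans ?_
  rw [integral_const_mul, integral_indicator measurableSet_ball]
  have h5 := ball3_le hf hp h0
  have h6 : 0 ≤ 27 * (ρ / r) ^ 3 := by positivity
  calc 27 * (ρ / r) ^ 3 * ∫ y in ball (0 : V) 3, f y
      ≤ 27 * (ρ / r) ^ 3 * (2197 * ∫ y in cube, f y) := mul_le_mul_of_nonneg_left h5 h6
    _ = _ := by ring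

theorem t_OVER : S_OVER := by
  classical
  refine ⟨118638, by norm_num, ?_⟩
  intro r S hr _ hS hSc t ρ hρ hρ2 f hf hp h0
  set A := S.filter (fun z => |t - z.1| < r ^ 2) with hA
  have hAS : ∀ z ∈ A, z ∈ S := fun z hz => (Finset.mem_filter.1 hz).1
  have hAt : ∀ z ∈ A, |t - z.1| < r ^ 2 := fun z hz => (Finset.mem_filter.1 hz).2
  have h1 := over_aux hr hρ hρ2 (A.filter fun z => z.1 < t) (f := f) ?_ ?_ hf hp h0
  · have h2 := over_aux hr hρ hρ2 (A.filter fun z => ¬ z.1 < t) (f := f) ?_ ?_ hf hp h0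
    · rw [← Finset.sum_filter_add_sum_filter_not A (fun z => z.1 < t)]
      linarith
    · intro z hz w hw hzw
      rw [Finset.mem_filter, not_lt] at hz hw
      rcases hS z (hAS z hz.1) w (hAS w hw.1) hzw with h | h
      · exfalso
        have h3 := hAt z hz.1
        have h4 := hAt w hw.1
        rw [abs_lt] at h3 h4
        have h5 : |z.1 - w.1| < r ^ 2 := by
          rw [abs_lt]
          constructor <;> linarith [h3.1, h4.1, hz.2, hw.2]
        linarith
      · exact h
    · intro z hz
      exact hSc z (hAS z (Finset.mem_filter.1 hz).1)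
  · intro z hz w hw hzw
    rw [Finset.mem_filter] at hz hw
    rcases hS z (hAS z hz.1) w (hAS w hw.1) hzw with h | h
    · exfalso
      have h3 := hAt z hz.1
      have h4 := hAt w hw.1
      rw [abs_lt] at h3 h4
      have h5 : |z.1 - w.1| < r ^ 2 := by
        rw [abs_lt]
        constructor <;> linarith [h3.2, h4.2, hz.2, hw.2]
      linarith
    · exact h
  · intro z hz
    exact hSc z (hAS z (Finset.mem_filter.1 hz).1)

end Pool.Agent.Y494.NS
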