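import Pool.Agent.Y8.Stm3

/-!
Sums over separated points of integrals over balls and times (for helper8's S_SUMB, S_C12, S_CFP).
-/

open MeasureTheory Set Metric Filter Topology
open scoped ContDiff

namespace Pool.Agent.Y494.NS.Sumb

open H459R3.NS W221.NS Pool.Agent.Y8

/-- The property of the constant in `S_OVER`. -/
def OverC (C : ℝ) : Prop := ∀ (r : ℝ) (S : Finset (ℝ × V)), 0 < r → r ≤ 1 → Sep r S →
  (∀ z ∈ S, z.2 ∈ cube) → ∀ (t ρ : ℝ), r ≤ ρ → ρ ≤ 2 → ∀ f : V → ℝ, Continuous f → Per f →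
    (∀ x, 0 ≤ f x) → ∑ z ∈ S.filter (fun z => |t - z.1| < r ^ 2), ∫ x in ball z.2 ρ, f x
      ≤ C * (ρ / r) ^ 3 * ∫ x in cube, f x

theorem rr_pos (n : ℕ) : 0 < rr n := by unfold rr; positivity

theorem rr_le (n : ℕ) : rr n ≤ 1 := by
  unfold rr
  exact pow_le_one₀ (by norm_num) (by norm_num)

theorem mem_II {n : ℕ} {a t : ℝ} : t ∈ II n a ↔ |t - a| < rr n ^ 2 := by
  unfold II
  rw [mem_Ioo, abs_lt]
  constructor <;> rintro ⟨h1, h2⟩ <;> constructor <;> linarith

section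

variable {T E D : ℝ} {G : Set ℝ} {u : ℝ → V → V} {p : ℝ → V → ℝ}

/-- The window is contained in `G` up to a null set. -/
theorem II_ae (h : Turb 1 T E D G u p) {n : ℕ} {a : ℝ} (h1 : 0 ≤ a - rr n ^ 2)
    (h2 : a + rr n ^ 2 ≤ T) : (II n a : Set ℝ) =ᵐ[volume] (G ∩ II n a : Set ℝ) := by
  have h3 : volume (II n a \ (G ∩ II n a)) = 0 := by
    refine measure_mono_null ?_ h.fullG
    rintro t ⟨ht, ht2⟩
    refine ⟨⟨h1.trans_lt ht.1, ht.2.trans_le h2⟩, fun hG => ht2 ⟨hG, ht⟩⟩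
  refine Filter.EventuallyLE.antisymm (ae_le_set.2 h3) ?_
  exact (inter_subset_right : G ∩ II n a ⊆ II n a).eventuallyLE

theorem II_eq (h : Turb 1 T E D G u p) {n : ℕ} {a : ℝ} (h1 : 0 ≤ a - rr n ^ 2)
    (h2 : a + rr n ^ 2 ≤ T) (f : ℝ → ℝ) :
    ∫ t in II n a, f t = ∫ t in G, (II n a).indicator f t := by
  rw [setIntegral_indicator (by unfold II; exact measurableSet_Ioo)]
  exact setIntegral_congr_set (II_ae h h1 h2)

theorem II_int (h : Turb 1 T E D G u p) {n : ℕ} {a : ℝ} (h1 : 0 ≤ a - rr n ^ 2)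
    (h2 : a + rr n ^ 2 ≤ T) {f : ℝ → ℝ} (hf : IntegrableOn f G) : IntegrableOn f (II n a) :=
  (integrableOn_congr_set_ae (II_ae h h1 h2)).2 (hf.mono_set inter_subset_left)

/-- Packing: sums of integrals over balls around separated points. -/
theorem pack {C : ℝ} (hO : OverC C) (h : Turb 1 T E D G u p) {n : ℕ} {S : Finset (ℝ × V)}
    (hsep : Sep (rr n) S)
    (hS : ∀ z ∈ S, 0 ≤ z.1 - rr n ^ 2 ∧ z.1 + rr n ^ 2 ≤ T ∧ z.2 ∈ cube) {ρ : ℝ}
    (hρ : rr n ≤ ρ) (hρ2 : ρ ≤ 2) {F : ℝ → V → ℝ} (hc : ∀ t ∈ G, Continuous (F t))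
    (hp : ∀ t ∈ G, Per (F t)) (h0 : ∀ t ∈ G, ∀ x, 0 ≤ F t x)
    (hm : ∀ a : V, AEStronglyMeasurable (fun t => ∫ x in ball a ρ, F t x) (volume.restrict G))
    (hI : IntegrableOn (fun t => ∫ x in cube, F t x) G) :
    (∀ a : V, IntegrableOn (fun t => ∫ x in ball a ρ, F t x) G) ∧
    ∑ z ∈ S, ∫ t in II n z.1, ∫ x in ball z.2 ρ, F t x ≤
      C * (ρ / rr n) ^ 3 * ∫ t in G, ∫ x in cube, F t x := by
  have hint : ∀ a : V, IntegrableOn (fun t => ∫ x in ball a ρ, F t x) G := by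
    intro a
    obtain ⟨K, hK, hb⟩ := ball_le ρ
    refine Integrable.mono' (hI.const_mul K) (hm a) ?_
    filter_upwards [ae_restrict_mem h.openG.measurableSet] with t ht
    rw [Real.norm_eq_abs, abs_of_nonneg (integral_nonneg fun x => h0 t ht x)]
    exact hb _ (hc t ht) (hp t ht) (h0 t ht) a
  refine ⟨hint, ?_⟩
  have e1 : ∑ z ∈ S, ∫ t in II n z.1, ∫ x in ball z.2 ρ, F t x =
      ∫ t in G, ∑ z ∈ S, (II n z.1).indicator (fun t => ∫ x in ball z.2 ρ, F t x) t := by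
    rw [integral_finsetSum]
    · exact Finset.sum_congr rfl fun z hz => II_eq h (hS z hz).1 (hS z hz).2.1 _
    · intro z _
      exact (hint z.2).indicator (by unfold II; exact measurableSet_Ioo)
  rw [e1, ← integral_const_mul]
  refine setIntegral_mono_on ?_ (hI.const_mul _) h.openG.measurableSet ?_
  · refine integrable_finsetSum _ fun z _ => ?_
    exact (hint z.2).indicator (by unfold II; exact measurableSet_Ioo)
  · intro t ht
    refine le_trans (le_of_eq ?_) (hO (rr n) S (rr_pos n) (rr_le n) hsep (fun z hz => (hS z hz).2.2)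
      t ρ hρ hρ2 (F t) (hc t ht) (hp t ht) (h0 t ht))
    rw [Finset.sum_filter]
    refine Finset.sum_congr rfl fun z _ => ?_
    by_cases hz : t ∈ II n z.1
    · rw [indicator_of_mem hz, if_pos (mem_II.1 hz)]
    · rw [indicator_of_notMem hz, if_neg (fun h => hz (mem_II.2 h))]

theorem D_nn (h : Turb 1 T E D G u p) : 0 ≤ D :=
  (integral_nonneg fun t => enst_nn (u t)).trans h.enst_le

theorem enst_G (h : Turb 1 T E D G u p) :
    ∫ t in G, ∫ x in cube, gsq (u t) x = ∫ t in G, enstrophy (u t) :=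
  setIntegral_congr_fun h.openG.measurableSet fun t ht => (enst_eq (h.spv ht).1).symm

theorem gsq_hI (h : Turb 1 T E D G u p) : IntegrableOn (fun t => ∫ x in cube, gsq (u t) x) G :=
  h.enst_int.congr_fun (fun t ht => enst_eq (h.spv ht).1) h.openG.measurableSet

theorem gsq_hm (h : Turb 1 T E D G u p) (ρ : ℝ) (a : V) :
    AEStronglyMeasurable (fun t => ∫ x in ball a ρ, gsq (u t) x) (volume.restrict G) :=
  (pint_cont h.openG (F := fun t x => gsq (u t) x)
    (gsq_joint h.openG h.smooth_u).continuousOn a ρ).aestronglyMeasurable h.openG.measurableSet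

/-- `B2` is integrable in time. -/
theorem B2_G (h : Turb 1 T E D G u p) (ρ : ℝ) (a : V) : IntegrableOn (fun t => B2 a ρ (u t)) G := by
  obtain ⟨K, hK, hb⟩ := ball_le ρ
  refine Integrable.mono' ((gsq_hI h).const_mul K) (gsq_hm h ρ a) ?_
  filter_upwards [ae_restrict_mem h.openG.measurableSet] with t ht
  rw [Real.norm_eq_abs, abs_of_nonneg (show 0 ≤ B2 a ρ (u t) from integral_nonneg fun x => gsq_nn _ x)]
  have hu := h.spv ht
  exact hb _ (gsq_sm hu.1).continuous (gsq_per hu.2) (gsq_nn _) a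

theorem cube_vol : (volume : Measure V).real cube = 1 := by
  unfold cube Measure.real
  rw [Real.volume_Icc_pi]
  simp

theorem ball_vol (a : V) {ρ : ℝ} (hρ : 0 < ρ) : (volume : Measure V).real (ball a ρ) = (2 * ρ) ^ 3 := by
  unfold Measure.real
  rw [Real.volume_pi_ball _ hρ]
  simp only [Fintype.card_fin]
  rw [ENNReal.toReal_ofReal (by positivity)]

end

theorem t_SUMB : S_OVER → S_SUMB := by
  rintro ⟨C, hC, hO⟩
  refine ⟨C, hC, fun T E D G u p h n S hsep hS => ⟨fun ρ hρ hρ2 => ?_, ?_⟩⟩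
  · have h1 := (pack (F := fun t x => gsq (u t) x) hO h hsep hS hρ hρ2
      (fun t ht => (gsq_sm (h.spv ht).1).continuous) (fun t ht => gsq_per (h.spv ht).2)
      (fun _ _ x => gsq_nn _ x) (gsq_hm h ρ) (gsq_hI h)).2
    rw [enst_G h] at h1
    refine h1.trans ?_
    have := rr_pos n
    have hρ0 : 0 < ρ := this.trans_le hρ
    exact mul_le_mul_of_nonneg_left h.enst_le (by positivity)
  · have hr := rr_pos n
    have e1 : ∀ (a : V) (c : ℝ), ∫ _ in ball a (rr n), c = (2 * rr n) ^ 3 * c := by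
      intro a c
      rw [setIntegral_const, ball_vol a hr, smul_eq_mul]
    have e2 : ∀ c : ℝ, ∫ _ in cube, c = c := by
      intro c
      rw [setIntegral_const, cube_vol, one_smul]
    have h1 := (pack (F := fun t _ => enstrophy (u t)) hO h hsep hS le_rfl
      ((rr_le n).trans (by norm_num)) (fun _ _ => continuous_const) (fun _ _ _ _ => rfl)
      (fun _ _ _ => enst_nn _) (fun a => by
        simp only [e1]
        exact h.enst_int.aestronglyMeasurable.const_mul _) (by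
        simp only [e2]
        exact h.enst_int)).2
    simp only [e1, e2, integral_const_mul] at h1
    rw [← Finset.mul_sum, div_self hr.ne', one_pow, mul_one] at h1
    have h2 : (2 * rr n) ^ 3 * ∑ z ∈ S, ∫ t in II n z.1, enstrophy (u t) ≤ C * D :=
      h1.trans (mul_le_mul_of_nonneg_left h.enst_le hC.le)
    have h3 : 0 ≤ ∑ z ∈ S, ∫ t in II n z.1, enstrophy (u t) :=
      Finset.sum_nonneg fun z _ => integral_nonneg fun t => enst_nn _
    have h4 : rr n ^ 3 * ∑ z ∈ S, ∫ t in II n z.1, enstrophy (u t) ≤ C * D := by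
      refine le_trans ?_ h2
      have : (2 * rr n) ^ 3 = 8 * rr n ^ 3 := by ring
      rw [this]
      have h5 : 0 ≤ rr n ^ 3 * ∑ z ∈ S, ∫ t in II n z.1, enstrophy (u t) := by positivity
      linarith
    rw [show C * (rr n ^ 3)⁻¹ * D = C * D / rr n ^ 3 by ring, le_div_iff₀ (by positivity)]
    linarith

theorem t_C12 : S_SUMB → S_C12 := by
  rintro ⟨C, hC, hB⟩
  refine ⟨16 * C, by positivity, fun T E D G u p h n S hsep hS => ?_⟩
  have hr := rr_pos n
  have hD := D_nn h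
  have hB1 := (hB T E D G u p h n S hsep hS).1
  have key : ∀ k ∈ Finset.range n, ∑ z ∈ S, ∫ t in II n z.1, B2 z.2 (2 ^ (k + 1) * rr n) (u t) ≤
      8 * C * 8 ^ k * D := by
    intro k hk
    have hk' : k + 1 ≤ n := Finset.mem_range.1 hk
    have h2 : (2 : ℝ) ^ (k + 1) * rr n ≤ 1 := by
      unfold rr
      rw [one_div, inv_pow, ← div_eq_mul_inv, div_le_one (by positivity)]
      exact pow_le_pow_right₀ (by norm_num) hk'
    have h3 := hB1 (2 ^ (k + 1) * rr n) (by
      have : (1 : ℝ) ≤ 2 ^ (k + 1) := one_le_pow₀ (by norm_num)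
      nlinarith) (by linarith)
    refine h3.trans (le_of_eq ?_)
    have e : ((2 : ℝ) ^ 3) ^ (k + 1) = 8 * 8 ^ k := by norm_num [pow_succ]; ring
    rw [mul_div_assoc, div_self hr.ne', mul_one, ← pow_mul, mul_comm (k + 1) 3, pow_mul, e]
    ring
  have hsum : ∀ (A : Finset ℕ) (w : ℕ → ℝ), A ⊆ Finset.range n → (∀ k, 0 ≤ w k) →
      ∑ z ∈ S, ∫ t in II n z.1, ∑ k ∈ A, w k * B2 z.2 (2 ^ (k + 1) * rr n) (u t) ≤
        8 * C * D * ∑ k ∈ A, w k * 8 ^ k := by
    intro A w hA hw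
    have h1 : ∀ z ∈ S, ∫ t in II n z.1, ∑ k ∈ A, w k * B2 z.2 (2 ^ (k + 1) * rr n) (u t) =
        ∑ k ∈ A, w k * ∫ t in II n z.1, B2 z.2 (2 ^ (k + 1) * rr n) (u t) := by
      intro z hz
      rw [integral_finsetSum]
      · exact Finset.sum_congr rfl fun k _ => integral_const_mul _ _
      · intro k _
        exact (II_int h (hS z hz).1 (hS z hz).2.1 (B2_G h _ _)).const_mul _
    rw [Finset.sum_congr rfl h1, Finset.sum_comm, Finset.mul_sum]
    refine Finset.sum_le_sum fun k hk => ?_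
    rw [← Finset.mul_sum]
    refine (mul_le_mul_of_nonneg_left (key k (hA hk)) (hw k)).trans (le_of_eq ?_)
    ring
  constructor
  · unfold NN2
    refine (hsum (Finset.range n) (fun k => rr n ^ 2 * ((2 ^ k * rr n) ^ 4)⁻¹) subset_rfl
      (fun k => by positivity)).trans ?_
    have h1 : ∀ k : ℕ, rr n ^ 2 * (((2 : ℝ) ^ k * rr n) ^ 4)⁻¹ * 8 ^ k = (rr n ^ 2)⁻¹ * (1 / 2) ^ k := by
      intro k
      have e1 : ((2 : ℝ) ^ k * rr n) ^ 4 = 16 ^ k * rr n ^ 4 := by
        rw [mul_pow, ← pow_mul, mul_comm k 4, pow_mul]; norm_num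
      have e2 : (8 : ℝ) ^ k = 16 ^ k * (1 / 2) ^ k := by
        rw [← mul_pow]; norm_num
      rw [e1, e2]
      field_simp
    simp_rw [h1]
    rw [← Finset.mul_sum]
    have h2 : ∑ k ∈ Finset.range n, (1 / 2 : ℝ) ^ k ≤ 2 := by
      rw [geom_sum_eq (by norm_num)]
      have : 0 < (1 / 2 : ℝ) ^ n := by positivity
      rw [div_le_iff_of_neg (by norm_num)]
      linarith
    calc 8 * C * D * ((rr n ^ 2)⁻¹ * ∑ k ∈ Finset.range n, (1 / 2 : ℝ) ^ k)
        ≤ 8 * C * D * ((rr n ^ 2)⁻¹ * 2) := by gcongr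
      _ = _ := by ring
  · intro m
    unfold NN1
    refine (hsum ((Finset.range n).filter (fun k => k ≤ m)) (fun k => ((2 ^ k * rr n) ^ 2)⁻¹)
      (Finset.filter_subset _ _) (fun k => by positivity)).trans ?_
    have h1 : ∀ k : ℕ, (((2 : ℝ) ^ k * rr n) ^ 2)⁻¹ * 8 ^ k = (rr n ^ 2)⁻¹ * 2 ^ k := by
      intro k
      have e1 : ((2 : ℝ) ^ k * rr n) ^ 2 = 4 ^ k * rr n ^ 2 := by
        rw [mul_pow, ← pow_mul, mul_comm k 2, pow_mul]; norm_num
      have e2 : (8 : ℝ) ^ k = 4 ^ k * 2 ^ k := by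
        rw [← mul_pow]; norm_num
      rw [e1, e2]
      field_simp
    simp_rw [h1]
    rw [← Finset.mul_sum]
    have h2 : ∑ k ∈ (Finset.range n).filter (fun k => k ≤ m), (2 : ℝ) ^ k ≤ 2 * 2 ^ m := by
      calc ∑ k ∈ (Finset.range n).filter (fun k => k ≤ m), (2 : ℝ) ^ k
          ≤ ∑ k ∈ Finset.range (m + 1), (2 : ℝ) ^ k := by
            refine Finset.sum_le_sum_of_subset_of_nonneg ?_ fun _ _ _ => by positivity
            intro k hk
            rw [Finset.mem_filter] at hk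
            rw [Finset.mem_range]
            omega
        _ = 2 ^ (m + 1) - 1 := by
            rw [geom_sum_eq (by norm_num)]
            norm_num
        _ ≤ _ := by rw [pow_succ]; linarith
    calc 8 * C * D * ((rr n ^ 2)⁻¹ * ∑ k ∈ (Finset.range n).filter (fun k => k ≤ m), (2 : ℝ) ^ k)
        ≤ 8 * C * D * ((rr n ^ 2)⁻¹ * (2 * 2 ^ m)) := by gcongr
      _ = _ := by ring

end Pool.Agent.Y494.NS.Sumb
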