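import Pool.Agent.Y8.Stm

/-!
Task TCUT of helper8: from cut-off functions in time to intervals.
-/

open MeasureTheory Set Filter Topology
open scoped ContDiff

namespace Pool.Agent.Y494.NS

/-- The transition from `0` to `1` in `[a + ε, a + 2 ε]`. -/
noncomputable def LL (a ε x : ℝ) : ℝ := Real.smoothTransition ((x - a) / ε - 1)

lemma LL_smooth (a ε : ℝ) : ContDiff ℝ ∞ (LL a ε) := by
  unfold LL
  exact Real.smoothTransition.contDiff.comp (by fun_prop)

lemma LL_nonneg (a ε x : ℝ) : 0 ≤ LL a ε x := Real.smoothTransition.nonneg _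

lemma LL_le_one (a ε x : ℝ) : LL a ε x ≤ 1 := Real.smoothTransition.le_one _

lemma LL_zero {a ε x : ℝ} (hε : 0 < ε) (hx : x ≤ a + ε) : LL a ε x = 0 := by
  refine Real.smoothTransition.zero_of_nonpos ?_
  rw [sub_nonpos, div_le_one hε]
  linarith

lemma LL_one {a ε x : ℝ} (hε : 0 < ε) (hx : a + 2 * ε ≤ x) : LL a ε x = 1 := by
  refine Real.smoothTransition.one_of_one_le ?_
  rw [le_sub_iff_add_le, le_div_iff₀ hε]
  linarith

lemma LL_mono {a ε : ℝ} (hε : 0 < ε) : Monotone (LL a ε) := by
  intro x y hxy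
  refine Real.smoothTransition.monotone ?_
  have : (x - a) / ε ≤ (y - a) / ε := div_le_div_of_nonneg_right (by linarith) hε.le
  linarith

lemma LL_deriv_nonneg {a ε : ℝ} (hε : 0 < ε) (x : ℝ) : 0 ≤ deriv (LL a ε) x :=
  (LL_mono hε).deriv_nonneg

lemma LL_deriv_zero {a ε x : ℝ} (hε : 0 < ε) (hx : a + 2 * ε < x) : deriv (LL a ε) x = 0 := by
  have h : LL a ε =ᶠ[𝓝 x] fun _ => (1 : ℝ) := by
    filter_upwards [lt_mem_nhds hx] with y hy
    exact LL_one hε hy.le
  rw [h.deriv_eq]
  simp

lemma LL_deriv_cont (a ε : ℝ) : Continuous (deriv (LL a ε)) :=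
  (LL_smooth a ε).continuous_deriv (by exact_mod_cast le_top)

lemma LL_int {a ε δ : ℝ} (hε : 0 < ε) (hδ : 2 * ε < δ) :
    ∫ x in a..(a + δ), deriv (LL a ε) x = 1 := by
  rw [intervalIntegral.integral_deriv_eq_sub
    (fun x _ => ((LL_smooth a ε).differentiable (by norm_num)).differentiableAt)
    ((LL_deriv_cont a ε).intervalIntegrable _ _)]
  rw [LL_one hε (by linarith), LL_zero hε (by linarith)]
  norm_num

lemma left_lim {a ε δ η : ℝ} {g : ℝ → ℝ} (hε : 0 < ε) (hδ : 2 * ε < δ)
    (hg : ContinuousOn g (Icc a (a + δ))) (hη : ∀ x ∈ Icc a (a + 2 * ε), |g x - g a| ≤ η) :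
    |(∫ x in a..(a + δ), deriv (LL a ε) x * g x) - g a| ≤ η := by
  have hle : a ≤ a + δ := by linarith
  have hu : uIcc a (a + δ) = Icc a (a + δ) := uIcc_of_le hle
  have hi1 : IntervalIntegrable (fun x => deriv (LL a ε) x * (g x - g a)) volume a (a + δ) := by
    refine ContinuousOn.intervalIntegrable ?_
    rw [hu]
    exact ((LL_deriv_cont a ε).continuousOn).mul (hg.sub continuousOn_const)
  have hi2 : IntervalIntegrable (fun x => deriv (LL a ε) x * g a) volume a (a + δ) :=
    ((LL_deriv_cont a ε).mul continuous_const).intervalIntegrable _ _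
  have h1 : (∫ x in a..(a + δ), deriv (LL a ε) x * g x) - g a
      = ∫ x in a..(a + δ), deriv (LL a ε) x * (g x - g a) := by
    have h2 : (∫ x in a..(a + δ), deriv (LL a ε) x * g a) = g a := by
      rw [intervalIntegral.integral_mul_const, LL_int hε hδ, one_mul]
    have h3 : (∫ x in a..(a + δ), deriv (LL a ε) x * g x)
        = (∫ x in a..(a + δ), (deriv (LL a ε) x * (g x - g a) + deriv (LL a ε) x * g a)) := by
      congr 1
      ext x
      ring
    rw [h3, intervalIntegral.integral_add hi1 hi2, h2]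
    ring
  rw [h1]
  have h4 : ‖∫ x in a..(a + δ), deriv (LL a ε) x * (g x - g a)‖
      ≤ ∫ x in a..(a + δ), deriv (LL a ε) x * η := by
    refine intervalIntegral.norm_integral_le_of_norm_le hle ?_
      (((LL_deriv_cont a ε).mul continuous_const).intervalIntegrable _ _)
    refine Filter.Eventually.of_forall fun x hx => ?_
    rw [Real.norm_eq_abs, abs_mul, abs_of_nonneg (LL_deriv_nonneg hε x)]
    rcases le_or_gt x (a + 2 * ε) with h | h
    · exact mul_le_mul_of_nonneg_left (hη x ⟨hx.1.le, h⟩) (LL_deriv_nonneg hε x)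
    · rw [LL_deriv_zero hε h]
      simp
  rw [intervalIntegral.integral_mul_const, LL_int hε hδ, one_mul] at h4
  exact h4

/-- The transition from `1` to `0` in `[b - 2 ε, b - ε]`. -/
noncomputable def RR (b ε x : ℝ) : ℝ := LL (-b) ε (-x)

lemma RR_smooth (b ε : ℝ) : ContDiff ℝ ∞ (RR b ε) := by
  unfold RR
  exact (LL_smooth (-b) ε).comp contDiff_neg

lemma RR_one {b ε x : ℝ} (hε : 0 < ε) (hx : x ≤ b - 2 * ε) : RR b ε x = 1 :=
  LL_one hε (by linarith)

lemma RR_zero {b ε x : ℝ} (hε : 0 < ε) (hx : b - ε ≤ x) : RR b ε x = 0 :=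
  LL_zero hε (by linarith)

lemma RR_deriv (b ε x : ℝ) : deriv (RR b ε) x = -deriv (LL (-b) ε) (-x) := by
  unfold RR
  rw [deriv_comp_neg]

lemma right_lim {b ε δ η : ℝ} {g : ℝ → ℝ} (hε : 0 < ε) (hδ : 2 * ε < δ)
    (hg : ContinuousOn g (Icc (b - δ) b)) (hη : ∀ x ∈ Icc (b - 2 * ε) b, |g x - g b| ≤ η) :
    |(∫ x in (b - δ)..b, deriv (RR b ε) x * g x) + g b| ≤ η := by
  have h1 := left_lim (a := -b) (ε := ε) (δ := δ) (η := η) (g := fun x => g (-x)) hε hδ ?_ ?_
  · simp only [neg_neg] at h1
    have h2 : (∫ x in (b - δ)..b, deriv (RR b ε) x * g x)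
        = -∫ x in (-b)..(-b + δ), deriv (LL (-b) ε) x * g (-x) := by
      have h3 := intervalIntegral.integral_comp_neg (a := b - δ) (b := b)
        (fun x => deriv (LL (-b) ε) x * g (-x))
      have h4 : -(b - δ) = -b + δ := by ring
      rw [h4] at h3
      rw [← h3, ← intervalIntegral.integral_neg]
      congr 1
      ext x
      rw [RR_deriv]
      simp only [neg_neg]
      ring
    rw [h2]
    rw [← abs_neg]
    convert h1 using 2
    ring
  · refine hg.comp continuous_neg.continuousOn ?_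
    intro x hx
    exact ⟨by linarith [hx.2], by linarith [hx.1]⟩
  · intro x hx
    simp only [neg_neg]
    exact hη (-x) ⟨by linarith [hx.2], by linarith [hx.1]⟩

theorem t_TCUT : Pool.Agent.Y8.S_TCUT := by
  intro G s t g h hG hs ht hst hgc hgi hhi hyp
  rcases hst.eq_or_lt with rfl | hst'
  · simp
  -- intervals in `G`
  obtain ⟨d1, hd1, hd1G⟩ := Metric.isOpen_iff.1 hG s hs
  obtain ⟨d2, hd2, hd2G⟩ := Metric.isOpen_iff.1 hG t ht
  refine le_of_forall_pos_le_add fun η0 hη0 => ?_
  set η := η0 / 2 with hη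
  have hηp : 0 < η := by positivity
  obtain ⟨d3, hd3, hd3g⟩ := Metric.continuousAt_iff.1 (hgc.continuousAt (hG.mem_nhds hs)) η hηp
  obtain ⟨d4, hd4, hd4g⟩ := Metric.continuousAt_iff.1 (hgc.continuousAt (hG.mem_nhds ht)) η hηp
  obtain ⟨δ, hδ, hδ1, hδ2, hδ3, hδ4, hδ5⟩ : ∃ δ : ℝ, 0 < δ ∧ δ < d1 ∧ δ < d2 ∧ δ < d3 ∧ δ < d4 ∧
      2 * δ < t - s := by
    refine ⟨min (min (d1 / 2) (d2 / 2)) (min (min (d3 / 2) (d4 / 2)) ((t - s) / 4)), ?_, ?_, ?_,
      ?_, ?_, ?_⟩
    · have : 0 < t - s := by linarith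
      positivity
    · have := (min_le_left (min (d1 / 2) (d2 / 2)) (min (min (d3 / 2) (d4 / 2)) ((t - s) / 4))).trans
        (min_le_left _ _)
      linarith
    · have := (min_le_left (min (d1 / 2) (d2 / 2)) (min (min (d3 / 2) (d4 / 2)) ((t - s) / 4))).trans
        (min_le_right _ _)
      linarith
    · have := (min_le_right (min (d1 / 2) (d2 / 2)) (min (min (d3 / 2) (d4 / 2)) ((t - s) / 4))).trans
        ((min_le_left _ _).trans (min_le_left _ _))
      linarith
    · have := (min_le_right (min (d1 / 2) (d2 / 2)) (min (min (d3 / 2) (d4 / 2)) ((t - s) / 4))).trans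
        ((min_le_left _ _).trans (min_le_right _ _))
      linarith
    · have := (min_le_right (min (d1 / 2) (d2 / 2)) (min (min (d3 / 2) (d4 / 2)) ((t - s) / 4))).trans
        (min_le_right _ _)
      linarith
  have hAG : Icc s (s + δ) ⊆ G := fun x hx => hd1G (by
    rw [Metric.mem_ball, Real.dist_eq, abs_of_nonneg (by linarith [hx.1])]
    linarith [hx.2])
  have hBG : Icc (t - δ) t ⊆ G := fun x hx => hd2G (by
    rw [Metric.mem_ball, Real.dist_eq, abs_sub_comm, abs_of_nonneg (by linarith [hx.2])]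
    linarith [hx.1])
  have hAη : ∀ x ∈ Icc s (s + δ), |g x - g s| ≤ η := fun x hx => by
    have := @hd3g x (by
      rw [Real.dist_eq, abs_of_nonneg (by linarith [hx.1])]
      linarith [hx.2])
    rw [Real.dist_eq] at this
    exact this.le
  have hBη : ∀ x ∈ Icc (t - δ) t, |g x - g t| ≤ η := fun x hx => by
    have := @hd4g x (by
      rw [Real.dist_eq, abs_sub_comm, abs_of_nonneg (by linarith [hx.2])]
      linarith [hx.1])
    rw [Real.dist_eq] at this
    exact this.le
  set θ : ℝ → ℝ → ℝ := fun ε x => LL s ε x * RR t ε x with hθ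
  have hθs : ∀ ε, ContDiff ℝ ∞ (θ ε) := fun ε => (LL_smooth s ε).mul (RR_smooth t ε)
  have hθ0 : ∀ ε x, 0 ≤ θ ε x := fun ε x => mul_nonneg (LL_nonneg _ _ _) (LL_nonneg _ _ _)
  have hθ1 : ∀ ε x, θ ε x ≤ 1 := fun ε x => by
    have := mul_le_mul (LL_le_one s ε x) (LL_le_one (-t) ε (-x)) (LL_nonneg _ _ _) zero_le_one
    simpa [hθ, RR] using this
  have hsupp : ∀ ε, 0 < ε → tsupport (θ ε) ⊆ Icc (s + ε) (t - ε) := by
    intro ε hε
    refine closure_minimal ?_ isClosed_Icc
    intro x hx
    by_contra hcon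
    apply hx
    rw [mem_Icc, not_and_or, not_le, not_le] at hcon
    rcases hcon with h1 | h1
    · simp only [hθ]
      rw [LL_zero hε h1.le, zero_mul]
    · simp only [hθ]
      rw [RR_zero hε h1.le, mul_zero]
  have hmeas : MeasurableSet (Ioo s t ∩ G) := measurableSet_Ioo.inter hG.measurableSet
  -- the main inequality
  have key : ∀ ε, 0 < ε → 2 * ε < δ →
      g t - g s - η0 ≤ ∫ τ in Ioo s t ∩ G, θ ε τ * h τ := by
    intro ε hε hεδ
    have hcs : HasCompactSupport (θ ε) :=
      HasCompactSupport.of_support_subset_isCompact isCompact_Icc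
        ((subset_tsupport _).trans (hsupp ε hε))
    have h0 := hyp (θ ε) (hθs ε) hcs ((hsupp ε hε).trans
      (fun x hx => ⟨by linarith [hx.1], by linarith [hx.2]⟩)) (hθ0 ε)
    have hdc : Continuous (deriv (θ ε)) :=
      (hθs ε).continuous_deriv (by exact_mod_cast le_top)
    obtain ⟨M, hM⟩ := (hcs.deriv).exists_bound_of_continuous hdc
    have hi1 : IntegrableOn (fun τ => deriv (θ ε) τ * g τ) (Ioo s t ∩ G) :=
      Integrable.bdd_mul hgi hdc.aestronglyMeasurable.restrict
        (Filter.Eventually.of_forall hM)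
    have hi2 : IntegrableOn (fun τ => θ ε τ * h τ) (Ioo s t ∩ G) :=
      Integrable.bdd_mul hhi (hθs ε).continuous.aestronglyMeasurable.restrict
        (c := 1) (Filter.Eventually.of_forall fun x => by
          rw [Real.norm_eq_abs, abs_of_nonneg (hθ0 ε x)]
          exact hθ1 ε x)
    rw [integral_add hi1 hi2] at h0
    have hsplit : ∫ τ in Ioo s t ∩ G, deriv (θ ε) τ * g τ
        = (∫ x in s..(s + δ), deriv (LL s ε) x * g x)
          + ∫ x in (t - δ)..t, deriv (RR t ε) x * g x := by
      have hsub : Ioc s (s + δ) ∪ Ioo (t - δ) t ⊆ Ioo s t ∩ G := by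
        rintro x (hx | hx)
        · exact ⟨⟨hx.1, by linarith [hx.2]⟩, hAG ⟨hx.1.le, hx.2⟩⟩
        · exact ⟨⟨by linarith [hx.1], hx.2⟩, hBG ⟨hx.1.le, hx.2.le⟩⟩
      have e1 : ∫ τ in Ioo s t ∩ G, deriv (θ ε) τ * g τ
          = ∫ τ in Ioc s (s + δ) ∪ Ioo (t - δ) t, deriv (θ ε) τ * g τ := by
        refine setIntegral_eq_of_subset_of_forall_sdiff_eq_zero hmeas hsub ?_
        intro x hx
        have hx1 : s + δ < x := by
          by_contra hcon
          exact hx.2 (Or.inl ⟨hx.1.1.1, not_lt.1 hcon⟩)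
        have hx2 : x ≤ t - δ := by
          by_contra hcon
          exact hx.2 (Or.inr ⟨not_le.1 hcon, hx.1.1.2⟩)
        have hev : θ ε =ᶠ[𝓝 x] fun _ => (1 : ℝ) := by
          filter_upwards [lt_mem_nhds (show s + 2 * ε < x by linarith),
            gt_mem_nhds (show x < t - 2 * ε by linarith)] with y hy1 hy2
          simp only [hθ]
          rw [LL_one hε hy1.le, RR_one hε hy2.le, mul_one]
        rw [hev.deriv_eq]
        simp
      have hdisj : Disjoint (Ioc s (s + δ)) (Ioo (t - δ) t) := by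
        rw [Set.disjoint_left]
        intro x hx hx'
        linarith [hx.2, hx'.1]
      rw [e1, setIntegral_union hdisj measurableSet_Ioo
        (hi1.mono_set (subset_union_left.trans hsub))
        (hi1.mono_set (subset_union_right.trans hsub))]
      congr 1
      · rw [intervalIntegral.integral_of_le (by linarith)]
        refine setIntegral_congr_fun measurableSet_Ioc fun x hx => ?_
        have hev : θ ε =ᶠ[𝓝 x] LL s ε := by
          filter_upwards [gt_mem_nhds (show x < t - 2 * ε by linarith [hx.2])] with y hy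
          simp only [hθ]
          rw [RR_one hε hy.le, mul_one]
        rw [hev.deriv_eq]
      · rw [intervalIntegral.integral_of_le (by linarith), integral_Ioc_eq_integral_Ioo]
        refine setIntegral_congr_fun measurableSet_Ioo fun x hx => ?_
        have hev : θ ε =ᶠ[𝓝 x] RR t ε := by
          filter_upwards [lt_mem_nhds (show s + 2 * ε < x by linarith [hx.1])] with y hy
          simp only [hθ]
          rw [LL_one hε hy.le, one_mul]
        rw [hev.deriv_eq]
    rw [hsplit] at h0
    have l1 := left_lim (g := g) hε hεδ (hgc.mono hAG)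
      (fun x hx => hAη x ⟨hx.1, by linarith [hx.2]⟩)
    have l2 := right_lim (g := g) hε hεδ (hgc.mono hBG)
      (fun x hx => hBη x ⟨by linarith [hx.1], hx.2⟩)
    rw [abs_le] at l1 l2
    linarith [l1.1, l1.2, l2.1, l2.2]
  -- the limit
  have hlim : Tendsto (fun n : ℕ => ∫ τ in Ioo s t ∩ G, θ (δ / (n + 3)) τ * h τ) atTop
      (𝓝 (∫ τ in Ioo s t ∩ G, h τ)) := by
    refine tendsto_integral_of_dominated_convergence (fun τ => |h τ|) ?_ hhi.abs ?_ ?_
    · intro n
      exact ((hθs _).continuous.aestronglyMeasurable.restrict).mul hhi.aestronglyMeasurable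
    · intro n
      refine Filter.Eventually.of_forall fun x => ?_
      rw [Real.norm_eq_abs, abs_mul, abs_of_nonneg (hθ0 _ x)]
      exact mul_le_of_le_one_left (abs_nonneg _) (hθ1 _ x)
    · refine (ae_restrict_iff' hmeas).2 (Filter.Eventually.of_forall fun x hx => ?_)
      have hx1 := hx.1.1
      have hx2 := hx.1.2
      have hev : ∀ᶠ n : ℕ in atTop, θ (δ / (n + 3)) x * h x = h x := by
        have hz : Tendsto (fun n : ℕ => δ / ((n : ℝ) + 3)) atTop (𝓝 0) := by
          refine Tendsto.div_atTop tendsto_const_nhds ?_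
          exact tendsto_atTop_add_const_right _ _ tendsto_natCast_atTop_atTop
        filter_upwards [hz.eventually (gt_mem_nhds (show (0 : ℝ) < (x - s) / 2 by linarith)),
          hz.eventually (gt_mem_nhds (show (0 : ℝ) < (t - x) / 2 by linarith))] with n h1 h2
        have hp : 0 < δ / ((n : ℝ) + 3) := by positivity
        simp only [hθ]
        rw [LL_one hp (by linarith), RR_one hp (by linarith)]
        ring
      exact tendsto_const_nhds.congr' (hev.mono fun n hn => hn.symm)
  have := ge_of_tendsto' hlim (fun n : ℕ => key (δ / (n + 3)) (by positivity) (by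
    rw [mul_div_assoc', div_lt_iff₀ (by positivity)]
    nlinarith [(Nat.cast_nonneg n : (0 : ℝ) ≤ n)]))
  linarith

end Pool.Agent.Y494.NS
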